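import Mathlib

/-!
# Project KD: constant operator sequences with a generalized `(C, λ)`-structure

Definitions and the fixed statements of the pieces.
-/

open scoped BoundedContinuousFunction
open Set Filter Topology

noncomputable section

namespace Pool.Agent.R263.KD

/-! ### Generalized hyperbolicity and generalized structures (real scalars) -/

section Gen

variable {B : Type} [NormedAddCommGroup B] [NormedSpace ℝ B]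

/-- `T` is generalized hyperbolic. -/
def GenHyp (T : B ≃L[ℝ] B) : Prop :=
  ∃ Es Eu : Submodule ℝ B, IsClosed (Es : Set B) ∧ IsClosed (Eu : Set B) ∧ IsCompl Es Eu ∧
    (∀ v ∈ Es, T v ∈ Es) ∧ (∀ v ∈ Eu, T.symm v ∈ Eu) ∧
    ∃ m : ℕ, 0 < m ∧ ∃ r : ℝ, r < 1 ∧ (∀ v ∈ Es, ‖T^[m] v‖ ≤ r * ‖v‖) ∧
      ∀ v ∈ Eu, ‖T.symm^[m] v‖ ≤ r * ‖v‖

/-- `A_{k+n-1} ⋯ A_k v`. -/
def fwd (A : ℤ → B ≃L[ℝ] B) (k : ℤ) : ℕ → B → B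
  | 0, v => v
  | n + 1, v => A (k + n) (fwd A k n v)

/-- `A_{k-n}⁻¹ ⋯ A_{k-1}⁻¹ v`. -/
def bwd (A : ℤ → B ≃L[ℝ] B) (k : ℤ) : ℕ → B → B
  | 0, v => v
  | n + 1, v => (A (k - n - 1)).symm (bwd A k n v)

/-- The sequence `A` has a generalized `(C, λ)`-structure for some `C > 0`, `λ ∈ (0,1)`. -/
def GenStructure (A : ℤ → B ≃L[ℝ] B) : Prop :=
  ∃ C lam : ℝ, 0 < C ∧ 0 < lam ∧ lam < 1 ∧ ∃ P Q : ℤ → (B →L[ℝ] B),
    (∀ k, (∀ v, P k (P k v) = P k v) ∧ (∀ v, Q k (Q k v) = Q k v) ∧ (∀ v, P k v + Q k v = v) ∧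
      ‖P k‖ ≤ C ∧ ‖Q k‖ ≤ C) ∧
    (∀ k v, P k v = v → P (k + 1) (A k v) = A k v) ∧
    (∀ k v, Q (k + 1) v = v → Q k ((A k).symm v) = (A k).symm v) ∧
    (∀ k (n : ℕ) v, 1 ≤ n → P k v = v → ‖fwd A k n v‖ ≤ C * lam ^ n * ‖v‖) ∧
    (∀ k (n : ℕ) v, 1 ≤ n → Q k v = v → ‖bwd A k n v‖ ≤ C * lam ^ n * ‖v‖)

end Gen

/-- E1. -/
def StmtE1 : Prop :=
  ∀ (B : Type) [NormedAddCommGroup B] [NormedSpace ℝ B] [CompleteSpace B] (T : B ≃L[ℝ] B),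
    GenHyp T → ∃ Φ Ψ : B →L[ℝ] B, (∀ v, T (Φ v) = -(Φ v)) ∧ ∀ v, T v = v → Ψ (Φ v) = v

/-- E2. -/
def StmtE2 : Prop :=
  ∀ (B : Type) [NormedAddCommGroup B] [NormedSpace ℝ B] [CompleteSpace B] (T : B ≃L[ℝ] B)
    (P : B →L[ℝ] B), (∀ v, P (P v) = P v) →
    (∀ v, P v = v → P (T (T v)) = T (T v) ∧ ‖T (T v)‖ ≤ (1 / 2) * ‖v‖) →
    (∀ v, P v = 0 → P (T.symm (T.symm v)) = 0 ∧ ‖T.symm (T.symm v)‖ ≤ (1 / 2) * ‖v‖) →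
    GenStructure (fun _ : ℤ => T)

/-! ### The matrix -/

section Mat

variable {A : Type} [CommRing A] [Algebra ℝ A]

/-- `κ`. -/
def kap (t ν : A) : A := (1 / 2 : ℝ) • ((1 + t) + ν * (1 - t))
/-- `q`. -/
def qq (t ν : A) : A := (1 / 2 : ℝ) • (ν * (1 - t) ^ 2 - (1 + t) ^ 2)
/-- `s`. -/
def ss (t ν ν' : A) : A := (3 / 4 : ℝ) • 1 + (1 / 8 : ℝ) • ((1 + t) * ν' + (1 - t) * ν)
/-- `z₃`. -/
def zz (t ν' : A) : A := (1 / 4 : ℝ) • ((1 - t) * ν' - (1 + t))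
/-- `(1 - ν) / 2`. -/
def eta (ν : A) : A := (1 / 2 : ℝ) • (1 - ν)

/-- The matrix from its data. -/
def tauGen (y1 y2 κ q z1 z2 z3 ν η : A) : Matrix (Fin 4) (Fin 4) A :=
  !![κ, ν - κ ^ 2, 0, -(η * y1);
     1 - y1 * z1, -κ + y1 * (z1 * (2 * κ - z2)), y1 * (ν - (κ - z2) ^ 2),
       y1 * (z3 * (2 * κ - z2) - η * y2);
     -(y2 * z1), z1 + y2 * (z1 * (2 * κ - z2)), (z2 - κ) + y2 * (ν - (κ - z2) ^ 2),
       z3 + y2 * (z3 * (2 * κ - z2) - η * y2);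
     -(q * z1), q * (z1 * (2 * κ - z2)), q * (ν - (κ - z2) ^ 2),
       -κ + q * (z3 * (2 * κ - z2) - η * y2)]

/-- The matrix `τ(ν)`. -/
def tau (y1 y2 t ν ν' : A) : Matrix (Fin 4) (Fin 4) A :=
  tauGen y1 y2 (kap t ν) (qq t ν) (y1 * ss t ν ν') (y2 * ss t ν ν') (zz t ν') ν (eta ν)

end Mat

/-- E4a. -/
def StmtE4a : Prop :=
  ∀ (A : Type) [CommRing A] [Algebra ℝ A] (y1 y2 κ q z1 z2 z3 ν η : A),
    z1 * y1 + z2 * y2 + z3 * q = 1 → ν - κ ^ 2 = η * q →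
    tauGen y1 y2 κ q z1 z2 z3 ν η * tauGen y1 y2 κ q z1 z2 z3 ν η = ν • 1

/-- E4b. -/
def StmtE4b : Prop :=
  ∀ (A : Type) [CommRing A] [Algebra ℝ A] (y1 y2 t ν ν' : A),
    y1 * y1 + y2 * y2 + t * t = 1 → ν * ν' = 1 →
    tau y1 y2 t ν ν' * tau y1 y2 t ν ν' = ν • 1

/-- E. -/
def StmtE : Prop :=
  ∀ (X : Type) [NormedAddCommGroup X] [NormedSpace ℝ X] [CompleteSpace X]
    (y1 y2 t : X →L[ℝ] X), y1 * y2 = y2 * y1 → y1 * t = t * y1 → y2 * t = t * y2 →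
    y1 * y1 + y2 * y2 + t * t = 1 →
    (¬ ∃ a1 a2 a3 b1 b2 b3 : X →L[ℝ] X,
      y1 * a1 + y2 * a2 + t * a3 = 0 ∧ b1 * a1 + b2 * a2 + b3 * a3 = 1) →
    ∃ (B : Type) (_ : NormedAddCommGroup B) (_ : NormedSpace ℝ B) (_ : CompleteSpace B)
      (T : B ≃L[ℝ] B), GenStructure (fun _ : ℤ => T) ∧ ¬ GenHyp T

/-! ### `ω₁` and stationary sets -/

/-- Linear orders of type `ω₁`. -/
class Om1 (Ω : Type) [LinearOrder Ω] : Prop where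
  ne : Nonempty Ω
  wf : WellFoundedLT Ω
  cnt : ∀ a : Ω, (Iic a).Countable
  bdd : ∀ f : ℕ → Ω, ∃ b, ∀ n, f n < b

/-- The fibres of `s` are stationary. -/
def Stat {Ω : Type} [LinearOrder Ω] (s : Ω → ℕ) : Prop :=
  ∀ (n : ℕ) (φ : Ω → Ω) (a : Ω), ∃ α, a < α ∧ s α = n ∧ ∀ γ < α, φ γ < α

/-- W: there is an order of type `ω₁` with countably many disjoint stationary sets. -/
def StmtW : Prop :=
  ∃ (Ω : Type) (_ : LinearOrder Ω) (_ : Om1 Ω) (s : Ω → ℕ), Stat s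

/-- The `m`-th unit sequence. -/
def eN (m : ℕ) : ℕ →ᵇ ℝ :=
  BoundedContinuousFunction.ofNormedAddCommGroupDiscrete (fun n => if n = m then 1 else 0) 1
    (fun n => by split_ifs <;> simp)

/-- P: Phillips' lemma. -/
def StmtP : Prop :=
  ∀ (μ : ℕ → ((ℕ →ᵇ ℝ) →L[ℝ] ℝ)) (M ρ : ℝ), (∀ l, ‖μ l‖ ≤ M) →
    (∀ c : ℕ →ᵇ ℝ, Tendsto (fun l => μ l c) atTop (𝓝 0)) →
    (∀ l m : ℕ, μ l (eN m) = if l = m then ρ else 0) → ρ = 0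

end Pool.Agent.R263.KD
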