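import Mathlib
import Pool.Agent.R263.KD.Defs

/-!
# Project KD: the Banach space `X` of functions on `ω₁`
-/

open scoped BoundedContinuousFunction
open Set Filter Topology

set_option linter.unusedSectionVars false

noncomputable section

namespace Pool.Agent.R263.KD

variable {Ω : Type} [LinearOrder Ω] [TopologicalSpace Ω] [DiscreteTopology Ω]
variable {E : Type} [NormedAddCommGroup E] [NormedSpace ℝ E]

/-- Left continuity of `γ ↦ d (s α) (f γ)` at every `α`. -/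
def LC (d : ℕ → (E →L[ℝ] ℝ)) (s : Ω → ℕ) (f : Ω → E) : Prop :=
  ∀ α a : Ω, a < α → ∀ ε : ℝ, 0 < ε → ∃ β < α, ∀ γ, β < γ → γ < α →
    |d (s α) (f γ) - d (s α) (f α)| ≤ ε

/-- The space `X`: bounded functions `Ω → E` vanishing at the end, with `d (s α) (f ·)` left
continuous at `α`. -/
def XSub [hΩ : Om1 Ω] (d : ℕ → (E →L[ℝ] ℝ)) (s : Ω → ℕ) : Submodule ℝ (Ω →ᵇ E) where
  carrier := {f | (∃ b, ∀ γ, b ≤ γ → f γ = 0) ∧ LC d s f}
  zero_mem' := by
    obtain ⟨b⟩ := hΩ.ne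
    refine ⟨⟨b, fun γ _ => rfl⟩, fun α a ha ε hε => ⟨a, ha, fun γ _ _ => ?_⟩⟩
    simpa using hε.le
  add_mem' := by
    rintro f g ⟨⟨b, hb⟩, hf⟩ ⟨⟨c, hc⟩, hg⟩
    refine ⟨⟨max b c, fun γ hγ => ?_⟩, fun α a ha ε hε => ?_⟩
    · rw [BoundedContinuousFunction.coe_add, Pi.add_apply, hb γ ((le_max_left _ _).trans hγ),
        hc γ ((le_max_right _ _).trans hγ), add_zero]
    · obtain ⟨β, hβ, h1⟩ := hf α a ha (ε / 2) (by linarith)
      obtain ⟨β', hβ', h2⟩ := hg α a ha (ε / 2) (by linarith)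
      refine ⟨max β β', max_lt hβ hβ', fun γ hγ hγ' => ?_⟩
      have e1 := h1 γ ((le_max_left _ _).trans_lt hγ) hγ'
      have e2 := h2 γ ((le_max_right _ _).trans_lt hγ) hγ'
      have : d (s α) ((f + g) γ) - d (s α) ((f + g) α) =
          (d (s α) (f γ) - d (s α) (f α)) + (d (s α) (g γ) - d (s α) (g α)) := by
        simp only [BoundedContinuousFunction.coe_add, Pi.add_apply, map_add]
        ring
      rw [this]
      exact (abs_add_le _ _).trans (by linarith)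
  smul_mem' := by
    rintro c f ⟨⟨b, hb⟩, hf⟩
    refine ⟨⟨b, fun γ hγ => ?_⟩, fun α a ha ε hε => ?_⟩
    · show c • f γ = 0
      rw [hb γ hγ, smul_zero]
    · obtain ⟨β, hβ, h1⟩ := hf α a ha (ε / (|c| + 1)) (by positivity)
      refine ⟨β, hβ, fun γ hγ hγ' => ?_⟩
      have e1 := h1 γ hγ hγ'
      have : d (s α) ((c • f) γ) - d (s α) ((c • f) α) =
          c * (d (s α) (f γ) - d (s α) (f α)) := by
        simp only [BoundedContinuousFunction.coe_smul, map_smul, smul_eq_mul]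
        ring
      rw [this, abs_mul]
      calc |c| * |d (s α) (f γ) - d (s α) (f α)| ≤ |c| * (ε / (|c| + 1)) := by gcongr
        _ ≤ (|c| + 1) * (ε / (|c| + 1)) := by gcongr; linarith
        _ = ε := by field_simp

variable [hΩ : Om1 Ω] {d : ℕ → (E →L[ℝ] ℝ)} {s : Ω → ℕ}

/-- The value of an element of `X` at `γ`. -/
def val (f : XSub d s) (γ : Ω) : E := f.1 γ

/-- `m ⊗ h` for a scalar function `m`. -/
def mk (m : Ω → ℝ) (h : E) (C : ℝ) (hC : ∀ γ, |m γ| ≤ C) (h0 : ∃ b, ∀ γ, b ≤ γ → m γ = 0)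
    (hl : ∀ α a : Ω, a < α → d (s α) h = 0 ∨ ∃ β < α, ∀ γ, β < γ → γ < α → m γ = m α) :
    XSub d s :=
  ⟨BoundedContinuousFunction.ofNormedAddCommGroupDiscrete (fun γ => m γ • h) (C * ‖h‖)
    (fun γ => by
      rw [norm_smul, Real.norm_eq_abs]
      exact mul_le_mul_of_nonneg_right (hC γ) (norm_nonneg _)), by
    obtain ⟨b, hb⟩ := h0
    refine ⟨⟨b, fun γ hγ => ?_⟩, fun α a ha ε hε => ?_⟩
    · show m γ • h = 0
      rw [hb γ hγ, zero_smul]
    · rcases hl α a ha with h1 | ⟨β, hβ, h1⟩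
      · refine ⟨a, ha, fun γ _ _ => ?_⟩
        show |d (s α) (m γ • h) - d (s α) (m α • h)| ≤ ε
        simp only [map_smul, h1, smul_zero, sub_self, abs_zero]
        exact hε.le
      · refine ⟨β, hβ, fun γ hγ hγ' => ?_⟩
        show |d (s α) (m γ • h) - d (s α) (m α • h)| ≤ ε
        rw [h1 γ hγ hγ', sub_self, abs_zero]
        exact hε.le⟩

theorem val_mk (m : Ω → ℝ) (h : E) (C : ℝ) (hC : ∀ γ, |m γ| ≤ C)
    (h0 : ∃ b, ∀ γ, b ≤ γ → m γ = 0)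
    (hl : ∀ α a : Ω, a < α → d (s α) h = 0 ∨ ∃ β < α, ∀ γ, β < γ → γ < α → m γ = m α)
    (γ : Ω) : val (mk (d := d) (s := s) m h C hC h0 hl) γ = m γ • h := rfl

theorem norm_mk_le (m : Ω → ℝ) (h : E) (C : ℝ) (hC : ∀ γ, |m γ| ≤ C)
    (h0 : ∃ b, ∀ γ, b ≤ γ → m γ = 0)
    (hl : ∀ α a : Ω, a < α → d (s α) h = 0 ∨ ∃ β < α, ∀ γ, β < γ → γ < α → m γ = m α)
    (hC0 : 0 ≤ C) : ‖mk (d := d) (s := s) m h C hC h0 hl‖ ≤ C * ‖h‖ :=
  (BoundedContinuousFunction.norm_le (by positivity)).2 (fun γ => by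
    show ‖m γ • h‖ ≤ C * ‖h‖
    rw [norm_smul, Real.norm_eq_abs]
    exact mul_le_mul_of_nonneg_right (hC γ) (norm_nonneg _))

theorem ext_val {f g : XSub d s} (h : ∀ γ, val f γ = val g γ) : f = g :=
  Subtype.ext (BoundedContinuousFunction.ext h)

theorem val_add (f g : XSub d s) (γ : Ω) : val (f + g) γ = val f γ + val g γ := rfl
theorem val_sub (f g : XSub d s) (γ : Ω) : val (f - g) γ = val f γ - val g γ := rfl
theorem val_neg (f : XSub d s) (γ : Ω) : val (-f) γ = -val f γ := rfl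
theorem val_zero (γ : Ω) : val (0 : XSub d s) γ = 0 := rfl
theorem val_smul (c : ℝ) (f : XSub d s) (γ : Ω) : val (c • f) γ = c • val f γ := rfl
theorem norm_val_le (f : XSub d s) (γ : Ω) : ‖val f γ‖ ≤ ‖f‖ :=
  BoundedContinuousFunction.norm_coe_le_norm f.1 γ
theorem norm_le_iff (f : XSub d s) {C : ℝ} (hC : 0 ≤ C) : ‖f‖ ≤ C ↔ ∀ γ, ‖val f γ‖ ≤ C :=
  BoundedContinuousFunction.norm_le hC
theorem val_bdd (f : XSub d s) : ∃ b, ∀ γ, b ≤ γ → val f γ = 0 := f.2.1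
theorem val_LC (f : XSub d s) : LC d s (val f) := f.2.2

theorem exists_gt' (a : Ω) : ∃ b, a < b := by
  obtain ⟨b, hb⟩ := hΩ.bdd (fun _ => a)
  exact ⟨b, hb 0⟩

/-- `u β h`: the function equal to `h` on `(-∞, β]` and `0` beyond. -/
def u (β : Ω) (h : E) : XSub d s :=
  mk (fun γ => if γ ≤ β then 1 else 0) h 1 (fun γ => by split_ifs <;> simp)
    (by
      obtain ⟨b, hb⟩ := exists_gt' β
      exact ⟨b, fun γ hγ => if_neg (not_le.2 (hb.trans_le hγ))⟩)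
    (fun α a ha => Or.inr (by
      by_cases hα : α ≤ β
      · exact ⟨a, ha, fun γ _ hγ => by rw [if_pos hα, if_pos (hγ.le.trans hα)]⟩
      · exact ⟨β, not_le.1 hα, fun γ hγ _ => by rw [if_neg hα, if_neg (not_le.2 hγ)]⟩))

theorem val_u (β : Ω) (h : E) (γ : Ω) :
    val (u (d := d) (s := s) β h) γ = if γ ≤ β then h else 0 := by
  show (if γ ≤ β then (1 : ℝ) else 0) • h = _
  split_ifs <;> simp

theorem val_u_of_le {β γ : Ω} (h : E) (hγ : γ ≤ β) :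
    val (u (d := d) (s := s) β h) γ = h := by rw [val_u, if_pos hγ]

theorem val_u_of_lt {β γ : Ω} (h : E) (hγ : β < γ) :
    val (u (d := d) (s := s) β h) γ = 0 := by rw [val_u, if_neg (not_le.2 hγ)]

/-- The restriction of `f` to `(-∞, a]`. -/
def trunc (a : Ω) (f : XSub d s) : XSub d s :=
  ⟨BoundedContinuousFunction.ofNormedAddCommGroupDiscrete (fun γ => if γ ≤ a then f.1 γ else 0)
    ‖f‖ (fun γ => by
      split_ifs
      · exact norm_val_le f γ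
      · simp), by
    obtain ⟨b, hb⟩ := exists_gt' a
    refine ⟨⟨b, fun γ hγ => if_neg (not_le.2 (hb.trans_le hγ))⟩, fun α a' ha ε hε => ?_⟩
    by_cases hα : α ≤ a
    · obtain ⟨β, hβ, h1⟩ := val_LC f α a' ha ε hε
      refine ⟨β, hβ, fun γ hγ hγ' => ?_⟩
      show |d (s α) (if γ ≤ a then f.1 γ else 0) - d (s α) (if α ≤ a then f.1 α else 0)| ≤ ε
      rw [if_pos hα, if_pos (hγ'.le.trans hα)]
      exact h1 γ hγ hγ'
    · refine ⟨a, not_le.1 hα, fun γ hγ _ => ?_⟩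
      show |d (s α) (if γ ≤ a then f.1 γ else 0) - d (s α) (if α ≤ a then f.1 α else 0)| ≤ ε
      rw [if_neg hα, if_neg (not_le.2 hγ), sub_self, abs_zero]
      exact hε.le⟩

theorem val_trunc (a : Ω) (f : XSub d s) (γ : Ω) :
    val (trunc a f) γ = if γ ≤ a then val f γ else 0 := rfl

/-- `Lim S h k`: for all large `γ`, `S (u β h) γ = k` for all large `β`. -/
def Lim (S : XSub d s →L[ℝ] XSub d s) (h k : E) : Prop :=
  ∃ γ₀, ∀ γ, γ₀ ≤ γ → ∃ b, ∀ β, b ≤ β → val (S (u β h)) γ = k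

end Pool.Agent.R263.KD

namespace Pool.Agent.R263.KD

/-- A: locality. -/
def StmtA : Prop :=
  ∀ (Ω : Type) [LinearOrder Ω] [TopologicalSpace Ω] [DiscreteTopology Ω] [Om1 Ω]
    (E : Type) [NormedAddCommGroup E] [NormedSpace ℝ E] (d : ℕ → (E →L[ℝ] ℝ)) (s : Ω → ℕ),
    (∀ e, (∀ n, d n e = 0) → e = 0) →
    ∀ (S : XSub d s →L[ℝ] XSub d s) (γ : Ω), ∃ b, ∀ f : XSub d s,
      (∀ γ', γ' ≤ b → val f γ' = 0) → val (S f) γ = 0

/-- B: existence of the limit. -/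
def StmtB : Prop :=
  ∀ (Ω : Type) [LinearOrder Ω] [TopologicalSpace Ω] [DiscreteTopology Ω] [Om1 Ω]
    (E : Type) [NormedAddCommGroup E] [NormedSpace ℝ E] (d : ℕ → (E →L[ℝ] ℝ)) (s : Ω → ℕ),
    (∀ e, (∀ n, d n e = 0) → e = 0) →
    Stat s → ∀ (S : XSub d s →L[ℝ] XSub d s) (h : E), ∃ k, Lim S h k

/-- C: if `h` is killed by `d n` then so is the limit. -/
def StmtC : Prop :=
  ∀ (Ω : Type) [LinearOrder Ω] [TopologicalSpace Ω] [DiscreteTopology Ω] [Om1 Ω]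
    (E : Type) [NormedAddCommGroup E] [NormedSpace ℝ E] (d : ℕ → (E →L[ℝ] ℝ)) (s : Ω → ℕ),
    (∀ e, (∀ n, d n e = 0) → e = 0) →
    Stat s → ∀ (S : XSub d s →L[ℝ] XSub d s) (h k : E) (n : ℕ), d n h = 0 →
      Lim S h k → d n k = 0

/-- M: multiplicativity. -/
def StmtM : Prop :=
  ∀ (Ω : Type) [LinearOrder Ω] [TopologicalSpace Ω] [DiscreteTopology Ω] [Om1 Ω]
    (E : Type) [NormedAddCommGroup E] [NormedSpace ℝ E] (d : ℕ → (E →L[ℝ] ℝ)) (s : Ω → ℕ),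
    (∀ e, (∀ n, d n e = 0) → e = 0) →
    Stat s → ∀ (S T : XSub d s →L[ℝ] XSub d s) (h k k' : E),
      Lim T h k → Lim S k k' → Lim (S.comp T) h k'

/-- R: `X` is complete and suitable operators of `E` act on it. -/
def StmtR : Prop :=
  ∀ (Ω : Type) [LinearOrder Ω] [TopologicalSpace Ω] [DiscreteTopology Ω] [Om1 Ω]
    (E : Type) [NormedAddCommGroup E] [NormedSpace ℝ E] [CompleteSpace E]
    (d : ℕ → (E →L[ℝ] ℝ)) (s : Ω → ℕ),
    IsClosed (XSub d s : Set (Ω →ᵇ E)) ∧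
    ∀ L : E →L[ℝ] E, (∀ n, ∃ c : ℝ, ∀ e, d n (L e) = c * d n e) →
      ∃ Mu : XSub d s →L[ℝ] XSub d s, ∀ f γ, val (Mu f) γ = L (val f γ)

/-- F: the space `X` over the sphere, with three coordinate operators which do not split. -/
def StmtF : Prop :=
  ∃ (X : Type) (_ : NormedAddCommGroup X) (_ : NormedSpace ℝ X) (_ : CompleteSpace X)
    (y1 y2 t : X →L[ℝ] X), y1 * y2 = y2 * y1 ∧ y1 * t = t * y1 ∧ y2 * t = t * y2 ∧
    y1 * y1 + y2 * y2 + t * t = 1 ∧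
    ¬ ∃ a1 a2 a3 b1 b2 b3 : X →L[ℝ] X,
      y1 * a1 + y2 * a2 + t * a3 = 0 ∧ b1 * a1 + b2 * a2 + b3 * a3 = 1

end Pool.Agent.R263.KD
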