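import Mathlib
import Pool.Agent.R263.KD.Defs
import Pool.Agent.R263.KD.DefsX

/-!
# Project KD: locality of the bounded operators on `X`
-/

open scoped BoundedContinuousFunction
open Set Filter Topology

noncomputable section

namespace Pool.Agent.R263.KD

theorem stmtA : StmtA := by
  intro Ω _ _ _ hΩ E _ _ d s hd S γ
  by_contra hcon
  push Not at hcon
  have key : ∀ b : Ω, ∃ n k : ℕ, ∃ f : XSub d s, (∀ γ' ≤ b, val f γ' = 0) ∧ ‖f‖ ≤ 1 ∧
      1 / ((k : ℝ) + 1) ≤ d n (val (S f) γ) := by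
    intro b
    obtain ⟨f, hf0, hf⟩ := hcon b
    have hn : ∃ n, d n (val (S f) γ) ≠ 0 := by
      by_contra h
      push Not at h
      exact hf (hd _ h)
    obtain ⟨n, hn⟩ := hn
    set x : ℝ := d n (val (S f) γ) with hx
    have hx0 : 0 < |x| := abs_pos.2 hn
    have hf1 : 0 < ‖f‖ + 1 := by positivity
    obtain ⟨k, hk⟩ := exists_nat_one_div_lt (div_pos hx0 hf1)
    refine ⟨n, k, (x / (|x| * (‖f‖ + 1))) • f, ?_, ?_, ?_⟩
    · intro γ' hγ'
      rw [val_smul, hf0 γ' hγ', smul_zero]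
    · rw [norm_smul, Real.norm_eq_abs, abs_div, abs_mul, abs_abs, abs_of_pos hf1,
        div_mul_eq_mul_div, div_le_one (by positivity)]
      nlinarith
    · rw [map_smul, val_smul, map_smul, smul_eq_mul, ← hx]
      have : x / (|x| * (‖f‖ + 1)) * x = |x| / (‖f‖ + 1) := by
        have h2 : x * x = |x| * |x| := (abs_mul_abs_self x).symm
        rw [div_mul_eq_mul_div, h2]
        field_simp
      rw [this]
      exact hk.le
  have huni : ∃ n k : ℕ, ∀ b : Ω, ∃ f : XSub d s, (∀ γ' ≤ b, val f γ' = 0) ∧ ‖f‖ ≤ 1 ∧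
      1 / ((k : ℝ) + 1) ≤ d n (val (S f) γ) := by
    by_contra h
    push Not at h
    choose B hB using h
    obtain ⟨b, hb⟩ := hΩ.bdd (fun m => B (Nat.unpair m).1 (Nat.unpair m).2)
    obtain ⟨n, k, f, h1, h2, h3⟩ := key b
    have hbn := hb (Nat.pair n k)
    rw [Nat.unpair_pair] at hbn
    exact absurd h3 (not_le.2 (hB n k f (fun γ' hγ' => h1 γ' (hγ'.trans hbn.le)) h2))
  obtain ⟨n, k, hnk⟩ := huni
  set δ : ℝ := 1 / ((k : ℝ) + 1) with hδ
  have hδ0 : 0 < δ := by positivity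
  have hind : ∀ J : ℕ, ∃ g : XSub d s, ‖g‖ ≤ 1 ∧ (J : ℝ) * δ ≤ d n (val (S g) γ) := by
    intro J
    induction J with
    | zero => exact ⟨0, by simp, by rw [map_zero, val_zero, map_zero]; simp⟩
    | succ J ih =>
      obtain ⟨g, hg, hgJ⟩ := ih
      obtain ⟨b, hb⟩ := val_bdd g
      obtain ⟨f, hf0, hf1, hf2⟩ := hnk b
      refine ⟨g + f, ?_, ?_⟩
      · rw [norm_le_iff _ zero_le_one]
        intro γ'
        rw [val_add]
        rcases le_total γ' b with h | h
        · rw [hf0 γ' h, add_zero]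
          exact (norm_val_le g γ').trans hg
        · rw [hb γ' h, zero_add]
          exact (norm_val_le f γ').trans hf1
      · rw [map_add, val_add, map_add]
        push_cast
        linarith
  obtain ⟨J, hJ⟩ := exists_nat_gt (‖d n‖ * ‖S‖ / δ)
  rw [div_lt_iff₀ hδ0] at hJ
  obtain ⟨g, hg, hgJ⟩ := hind J
  have h1 : d n (val (S g) γ) ≤ ‖d n‖ * ‖S‖ := by
    calc d n (val (S g) γ) ≤ ‖d n (val (S g) γ)‖ := Real.le_norm_self _
      _ ≤ ‖d n‖ * ‖val (S g) γ‖ := (d n).le_opNorm _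
      _ ≤ ‖d n‖ * ‖S‖ := by
          gcongr
          calc ‖val (S g) γ‖ ≤ ‖S g‖ := norm_val_le _ _
            _ ≤ ‖S‖ * ‖g‖ := S.le_opNorm _
            _ ≤ ‖S‖ * 1 := by gcongr
            _ = ‖S‖ := mul_one _
  linarith

end Pool.Agent.R263.KD
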