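import Mathlib
import Pool.Agent.R263.KD.Defs
import Pool.Agent.R263.KD.DefsX

/-!
# KD-B: existence of the limit (helper699)
-/

open scoped BoundedContinuousFunction
open Set Filter Topology

set_option linter.unusedSectionVars false

noncomputable section

namespace Pool.Agent.R263.KD

theorem stmtB (hA : StmtA) : StmtB := by
  intro Ω _ _ _ hΩ E _ _ d s hsep hs S h
  choose b hb using fun γ => hA Ω E d s hsep S γ
  set Ff : Ω → E := fun γ => val (S (u (b γ) h)) γ with hFf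
  have hF : ∀ γ β, b γ ≤ β → val (S (u β h)) γ = Ff γ := by
    intro γ β hβ
    have h1 := hb γ (u β h - u (b γ) h) (by
      intro γ' hγ'
      rw [val_sub, val_u_of_le h (hγ'.trans hβ), val_u_of_le h hγ', sub_self])
    rw [map_sub, val_sub, sub_eq_zero] at h1
    exact h1
  obtain ⟨a00⟩ := hΩ.ne
  have claim : ∀ (n : ℕ) (ε : ℝ), 0 < ε → ∃ a, ∀ γ γ', a < γ → a < γ' →
      |d n (Ff γ) - d n (Ff γ')| ≤ ε := by
    intro n ε hε
    by_contra hcon
    push Not at hcon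
    choose g1 g2 hg1 hg2 hg using hcon
    obtain ⟨α, ha, hsα, hcl⟩ := hs n (fun a => max (g1 a) (g2 a)) a00
    obtain ⟨e, he⟩ := (hΩ.cnt α).exists_eq_range ⟨α, le_refl α⟩
    obtain ⟨Bd, hBd⟩ := hΩ.bdd (fun m => b (e m))
    have hfv : ∀ γ, γ ≤ α → val (S (u Bd h)) γ = Ff γ := by
      intro γ hγ
      apply hF
      have : γ ∈ range e := by rw [← he]; exact hγ
      obtain ⟨m, rfl⟩ := this
      exact (hBd m).le
    obtain ⟨β, hβ, h1⟩ := val_LC (S (u Bd h)) α a00 ha (ε / 2) (by linarith)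
    have hm := hcl β hβ
    have l1 : g1 β < α := lt_of_le_of_lt (le_max_left _ _) hm
    have l2 : g2 β < α := lt_of_le_of_lt (le_max_right _ _) hm
    have e1 := h1 (g1 β) (hg1 β) l1
    have e2 := h1 (g2 β) (hg2 β) l2
    rw [hfv _ l1.le, hfv _ le_rfl, hsα] at e1
    rw [hfv _ l2.le, hfv _ le_rfl, hsα] at e2
    have e3 := hg β
    have e4 : |d n (Ff (g1 β)) - d n (Ff (g2 β))| ≤ ε := by
      have : d n (Ff (g1 β)) - d n (Ff (g2 β)) =
          (d n (Ff (g1 β)) - d n (Ff α)) - (d n (Ff (g2 β)) - d n (Ff α)) := by ring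
      rw [this]
      exact (abs_sub _ _).trans (by linarith)
    exact absurd e4 (not_le.2 e3)
  choose a ha using fun (n k : ℕ) => claim n (1 / ((k : ℝ) + 1)) (by positivity)
  obtain ⟨γ0, hγ0⟩ := hΩ.bdd (fun m => a m.unpair.1 m.unpair.2)
  have hγ0' : ∀ n k, a n k < γ0 := by
    intro n k
    have := hγ0 (Nat.pair n k)
    rwa [Nat.unpair_pair] at this
  refine ⟨Ff γ0, γ0, fun γ hγ => ⟨b γ, fun β hβ => ?_⟩⟩
  rw [hF γ β hβ]
  have : Ff γ - Ff γ0 = 0 := by
    apply hsep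
    intro n
    rw [map_sub]
    have hle : ∀ k : ℕ, |d n (Ff γ) - d n (Ff γ0)| ≤ 1 / ((k : ℝ) + 1) := fun k =>
      ha n k γ γ0 ((hγ0' n k).trans_le hγ) (hγ0' n k)
    have h0 : |d n (Ff γ) - d n (Ff γ0)| ≤ 0 :=
      ge_of_tendsto' tendsto_one_div_add_atTop_nhds_zero_nat hle
    exact abs_nonpos_iff.1 h0
  exact sub_eq_zero.1 this

end Pool.Agent.R263.KD
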