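import Mathlib
import Pool.Agent.R263.KD.Defs
import Pool.Agent.R263.KD.DefsX

/-!
# KD-C: limits respect the kernel of `d n` (helper699)
-/

open scoped BoundedContinuousFunction
open Set Filter Topology

set_option linter.unusedSectionVars false

noncomputable section

namespace Pool.Agent.R263.KD

namespace CP

variable {Ω : Type} [LinearOrder Ω] [TopologicalSpace Ω] [DiscreteTopology Ω]
variable {E : Type} [NormedAddCommGroup E] [NormedSpace ℝ E]

/-- evaluation -/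
def ev [Om1 Ω] (d : ℕ → (E →L[ℝ] ℝ)) (s : Ω → ℕ) (γ : Ω) : XSub d s →L[ℝ] E :=
  LinearMap.mkContinuous
    { toFun := fun f => val f γ
      map_add' := fun f g => val_add f g γ
      map_smul' := fun c f => val_smul c f γ } 1 (fun f => by
        rw [one_mul]
        exact norm_val_le f γ)

theorem ev_apply [Om1 Ω] (d : ℕ → (E →L[ℝ] ℝ)) (s : Ω → ℕ) (γ : Ω) (f : XSub d s) :
    ev d s γ f = val f γ := rfl

open Classical in
/-- the step function -/
def st (a : ℕ → Ω) (c : ℕ → ℝ) (γ : Ω) : ℝ :=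
  if h : ∃ m, a m < γ ∧ γ ≤ a (m + 1) then c h.choose else 0

theorem st_eq (a : ℕ → Ω) (ha : StrictMono a) (c : ℕ → ℝ) (γ : Ω) (m : ℕ) (h1 : a m < γ)
    (h2 : γ ≤ a (m + 1)) : st a c γ = c m := by
  have h : ∃ m, a m < γ ∧ γ ≤ a (m + 1) := ⟨m, h1, h2⟩
  unfold st
  rw [dif_pos h]
  congr 1
  obtain ⟨h3, h4⟩ := h.choose_spec
  set m' := h.choose
  have l1 : m' < m + 1 := ha.lt_iff_lt.1 (h3.trans_le h2)
  have l2 : m < m' + 1 := ha.lt_iff_lt.1 (h1.trans_le h4)
  omega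

theorem st_zero (a : ℕ → Ω) (c : ℕ → ℝ) (γ : Ω) (h : ∀ m, ¬ (a m < γ ∧ γ ≤ a (m + 1))) :
    st a c γ = 0 := by
  unfold st
  rw [dif_neg]
  rintro ⟨m, hm⟩
  exact h m hm

end CP

open CP in
theorem stmtC (_hA : StmtA) (hP : StmtP) : StmtC := by
  classical
  intro Ω _ _ _ hΩ E _ _ d s _ hs S h k n hn hLim
  obtain ⟨γ0, hγ0⟩ := hLim
  -- bounds
  have hbb : ∀ γ, ∃ b, γ0 ≤ γ → ∀ β, b ≤ β → val (S (u β h)) γ = k := by
    intro γ
    by_cases hγ : γ0 ≤ γ
    · obtain ⟨b, hb⟩ := hγ0 γ hγ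
      exact ⟨b, fun _ => hb⟩
    · exact ⟨γ, fun h => absurd h hγ⟩
  choose bb hbb using hbb
  have hsig : ∀ β, ∃ σ, ∀ β' γ, β' ≤ β → σ ≤ γ → val (S (u β' h)) γ = 0 := by
    intro β
    obtain ⟨e, he⟩ := (hΩ.cnt β).exists_eq_range ⟨β, le_refl β⟩
    choose w hw using fun m => val_bdd (S (u (e m) h))
    obtain ⟨σ, hσ⟩ := hΩ.bdd w
    refine ⟨σ, fun β' γ hβ' hγ => ?_⟩
    have : β' ∈ range e := by rw [← he]; exact hβ'
    obtain ⟨m, rfl⟩ := this
    exact hw m γ ((hσ m).le.trans hγ)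
  choose sg hsg using hsig
  set G : Ω → Ω := fun β => max (sg β) (max γ0 β) with hG
  have hGs : ∀ β, sg β ≤ G β := fun β => le_max_left _ _
  have hG0 : ∀ β, γ0 ≤ G β := fun β => (le_max_left _ _).trans (le_max_right _ _)
  have hGb : ∀ β, β ≤ G β := fun β => (le_max_right _ _).trans (le_max_right _ _)
  choose φ hφ using fun β => exists_gt' (max (G β) (bb (G β)))
  have hφ1 : ∀ β, G β < φ β := fun β => (le_max_left _ _).trans_lt (hφ β)
  have hφ2 : ∀ β, bb (G β) < φ β := fun β => (le_max_right _ _).trans_lt (hφ β)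
  obtain ⟨a0⟩ := hΩ.ne
  obtain ⟨α, ha0, hsα, hcl⟩ := hs n φ a0
  obtain ⟨e, he⟩ := ((hΩ.cnt α).mono Iio_subset_Iic_self).exists_eq_range ⟨a0, ha0⟩
  have heα : ∀ m, e m < α := by
    intro m
    have : e m ∈ Iio α := by rw [he]; exact mem_range_self m
    exact this
  set a : ℕ → Ω := fun m => Nat.rec a0 (fun m x => max (φ x) (e m)) m with hadef
  have ha_zero : a 0 = a0 := rfl
  have ha_succ : ∀ m, a (m + 1) = max (φ (a m)) (e m) := fun m => rfl
  have haα : ∀ m, a m < α := by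
    intro m
    induction m with
    | zero => exact ha0
    | succ m ih =>
      rw [ha_succ]
      exact max_lt (hcl _ ih) (heα m)
  have hGa : ∀ m, G (a m) < a (m + 1) := by
    intro m
    rw [ha_succ]
    exact (hφ1 _).trans_le (le_max_left _ _)
  have hba : ∀ m, bb (G (a m)) < a (m + 1) := by
    intro m
    rw [ha_succ]
    exact (hφ2 _).trans_le (le_max_left _ _)
  have hmono : StrictMono a := strictMono_nat_of_lt_succ (fun m => (hGb (a m)).trans_lt (hGa m))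
  have hcof : ∀ γ, γ < α → ∃ m, γ < a m := by
    intro γ hγ
    have : γ ∈ range e := by rw [← he]; exact hγ
    obtain ⟨m, rfl⟩ := this
    refine ⟨m + 2, lt_of_le_of_lt ?_ (hmono (Nat.lt_succ_self (m + 1)))⟩
    rw [ha_succ]
    exact le_max_right _ _
  set g : ℕ → Ω := fun m => G (a m) with hg
  have hgα : ∀ m, g m < α := fun m => (hGa m).trans (haα (m + 1))
  -- values
  have hv1 : ∀ j l, l + 1 ≤ j → val (S (u (a j) h)) (g l) = k := by
    intro j l hjl
    apply hbb (g l) (hG0 _)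
    exact (hba l).le.trans (hmono.monotone hjl)
  have hv0 : ∀ j l, j ≤ l → val (S (u (a j) h)) (g l) = 0 := by
    intro j l hjl
    exact hsg (a l) (a j) (g l) (hmono.monotone hjl) (hGs _)
  have hvα : ∀ j, val (S (u (a j) h)) α = 0 := by
    intro j
    apply hsg (a j) (a j) α le_rfl
    exact (hGs _).trans (hgα j).le
  -- the step functions
  have hout : ∀ γ, α ≤ γ → ∀ m, ¬ (a m < γ ∧ γ ≤ a (m + 1)) := by
    intro γ hγ m hm
    exact absurd (hγ.trans hm.2) (not_le.2 (haα (m + 1)))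
  have hlow : ∀ γ, γ ≤ a 0 → ∀ m, ¬ (a m < γ ∧ γ ≤ a (m + 1)) := by
    intro γ hγ m hm
    exact absurd ((hm.1.trans_le hγ)) (not_lt.2 (hmono.monotone (Nat.zero_le m)))
  have hin : ∀ γ, a 0 < γ → γ < α → ∃ m, a m < γ ∧ γ ≤ a (m + 1) := by
    intro γ h0 hγ
    obtain ⟨m, hm⟩ := hcof γ hγ
    have hex : ∃ m, γ ≤ a m := ⟨m, hm.le⟩
    have h1 := Nat.find_spec hex
    have h2 : Nat.find hex ≠ 0 := by
      intro h3
      rw [h3] at h1
      exact absurd h1 (not_le.2 h0)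
    obtain ⟨j, hj⟩ := Nat.exists_eq_succ_of_ne_zero h2
    refine ⟨j, ?_, ?_⟩
    · have := Nat.find_min hex (m := j) (by omega)
      exact not_le.1 this
    · rw [hj] at h1
      exact h1
  have hC : ∀ (c : ℕ →ᵇ ℝ) (γ : Ω), |st a c γ| ≤ ‖c‖ := by
    intro c γ
    by_cases hex : ∃ m, a m < γ ∧ γ ≤ a (m + 1)
    · obtain ⟨m, h1, h2⟩ := hex
      rw [st_eq a hmono c γ m h1 h2]
      exact c.norm_coe_le_norm m
    · rw [st_zero a c γ (fun m hm => hex ⟨m, hm⟩), abs_zero]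
      exact norm_nonneg c
  have h0 : ∀ c : ℕ →ᵇ ℝ, ∃ b, ∀ γ, b ≤ γ → st a c γ = 0 := fun c =>
    ⟨α, fun γ hγ => st_zero a c γ (hout γ hγ)⟩
  have hl : ∀ (c : ℕ →ᵇ ℝ) (α' a' : Ω), a' < α' → d (s α') h = 0 ∨
      ∃ β < α', ∀ γ, β < γ → γ < α' → st a c γ = st a c α' := by
    intro c α' a' ha'
    rcases lt_trichotomy α' α with h1 | h1 | h1
    · right
      by_cases h2 : a 0 < α'
      · obtain ⟨m, h3, h4⟩ := hin α' h2 h1
        refine ⟨a m, h3, fun γ h5 h6 => ?_⟩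
        rw [st_eq a hmono c γ m h5 (h6.le.trans h4), st_eq a hmono c α' m h3 h4]
      · rw [not_lt] at h2
        refine ⟨a', ha', fun γ _ h6 => ?_⟩
        rw [st_zero a c γ (hlow γ (h6.le.trans h2)), st_zero a c α' (hlow α' h2)]
    · left
      rw [h1, hsα]
      exact hn
    · right
      refine ⟨α, h1, fun γ h5 _ => ?_⟩
      rw [st_zero a c γ (hout γ h5.le), st_zero a c α' (hout α' h1.le)]
  have st_add : ∀ (c c' : ℕ →ᵇ ℝ) (γ : Ω), st a (c + c') γ = st a c γ + st a c' γ := by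
    intro c c' γ
    by_cases hex : ∃ m, a m < γ ∧ γ ≤ a (m + 1)
    · obtain ⟨m, h1, h2⟩ := hex
      rw [st_eq a hmono _ γ m h1 h2, st_eq a hmono _ γ m h1 h2, st_eq a hmono _ γ m h1 h2]
      rfl
    · rw [st_zero a _ γ (fun m hm => hex ⟨m, hm⟩), st_zero a _ γ (fun m hm => hex ⟨m, hm⟩),
        st_zero a _ γ (fun m hm => hex ⟨m, hm⟩), add_zero]
  have st_smul : ∀ (r : ℝ) (c : ℕ →ᵇ ℝ) (γ : Ω), st a (r • c : ℕ →ᵇ ℝ) γ = r * st a c γ := by
    intro r c γ
    by_cases hex : ∃ m, a m < γ ∧ γ ≤ a (m + 1)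
    · obtain ⟨m, h1, h2⟩ := hex
      rw [st_eq a hmono _ γ m h1 h2, st_eq a hmono _ γ m h1 h2]
      rfl
    · rw [st_zero a _ γ (fun m hm => hex ⟨m, hm⟩), st_zero a _ γ (fun m hm => hex ⟨m, hm⟩),
        mul_zero]
  set J : (ℕ →ᵇ ℝ) →L[ℝ] XSub d s :=
    LinearMap.mkContinuous
      { toFun := fun c => mk (st a c) h ‖c‖ (hC c) (h0 c) (hl c)
        map_add' := fun c c' => by
          apply ext_val
          intro γ
          rw [val_add, val_mk, val_mk, val_mk]
          rw [BoundedContinuousFunction.coe_add, st_add c c' γ, add_smul]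
        map_smul' := fun r c => by
          apply ext_val
          intro γ
          rw [RingHom.id_apply, val_smul, val_mk, val_mk]
          have := st_smul r c γ
          rw [this, mul_smul] } ‖h‖ (fun c => by
        have := norm_mk_le (d := d) (s := s) (st a c) h ‖c‖ (hC c) (h0 c) (hl c) (norm_nonneg c)
        rw [mul_comm]
        exact this) with hJ
  have hJv : ∀ c γ, val (J c) γ = st a c γ • h := fun c γ => rfl
  have hJe : ∀ m, J (eN m) = u (a (m + 1)) h - u (a m) h := by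
    intro m
    apply ext_val
    intro γ
    rw [hJv, val_sub]
    have heN : ∀ i, (eN m) i = if i = m then 1 else 0 := fun i => rfl
    by_cases h1 : γ ≤ a m
    · rw [val_u_of_le h h1, val_u_of_le h (h1.trans (hmono (Nat.lt_succ_self m)).le), sub_self]
      by_cases hex : ∃ j, a j < γ ∧ γ ≤ a (j + 1)
      · obtain ⟨j, h2, h3⟩ := hex
        rw [st_eq a hmono _ γ j h2 h3, heN, if_neg, zero_smul]
        rintro rfl
        exact absurd h1 (not_le.2 h2)
      · rw [st_zero a _ γ (fun m hm => hex ⟨m, hm⟩), zero_smul]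
    · rw [not_le] at h1
      by_cases h4 : γ ≤ a (m + 1)
      · rw [val_u_of_le h h4, val_u_of_lt h h1, sub_zero, st_eq a hmono _ γ m h1 h4, heN,
          if_pos rfl, one_smul]
      · rw [not_le] at h4
        rw [val_u_of_lt h h4, val_u_of_lt h h1, sub_zero]
        by_cases hex : ∃ j, a j < γ ∧ γ ≤ a (j + 1)
        · obtain ⟨j, h2, h3⟩ := hex
          rw [st_eq a hmono _ γ j h2 h3, heN, if_neg, zero_smul]
          rintro rfl
          exact absurd h3 (not_le.2 h4)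
        · rw [st_zero a _ γ (fun m hm => hex ⟨m, hm⟩), zero_smul]
  set θ : Ω → ((ℕ →ᵇ ℝ) →L[ℝ] ℝ) := fun γ => (d n).comp ((ev d s γ).comp (S.comp J)) with hθ
  have hθv : ∀ γ c, θ γ c = d n (val (S (J c)) γ) := fun γ c => rfl
  have hθb : ∀ γ, ‖θ γ‖ ≤ ‖d n‖ * (‖S‖ * ‖J‖) := by
    intro γ
    apply ContinuousLinearMap.opNorm_le_bound _ (by positivity)
    intro c
    rw [hθv]
    calc ‖d n (val (S (J c)) γ)‖ ≤ ‖d n‖ * ‖val (S (J c)) γ‖ := (d n).le_opNorm _
      _ ≤ ‖d n‖ * (‖S‖ * (‖J‖ * ‖c‖)) := by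
          gcongr
          refine (norm_val_le _ _).trans ((S.le_opNorm _).trans ?_)
          gcongr
          exact J.le_opNorm c
      _ = ‖d n‖ * (‖S‖ * ‖J‖) * ‖c‖ := by ring
  apply hP (fun l => θ (g l) - θ α) (‖d n‖ * (‖S‖ * ‖J‖) + ‖d n‖ * (‖S‖ * ‖J‖)) (d n k)
  · intro l
    have h1 := norm_sub_le (θ (g l)) (θ α)
    have h2 := hθb (g l)
    have h3 := hθb α
    linarith
  · intro c
    rw [Metric.tendsto_atTop]
    intro ε hε
    obtain ⟨β, hβ, h1⟩ := val_LC (S (J c)) α a0 ha0 (ε / 2) (by linarith)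
    obtain ⟨m, hm⟩ := hcof β hβ
    refine ⟨m, fun l hl' => ?_⟩
    rw [Real.dist_eq, sub_zero]
    have h2 : β < g l := hm.trans_le ((hmono.monotone hl').trans (hGb _))
    have h3 := h1 (g l) h2 (hgα l)
    rw [hsα] at h3
    show |θ (g l) c - θ α c| < ε
    rw [hθv, hθv]
    linarith
  · intro l m
    show θ (g l) (eN m) - θ α (eN m) = _
    rw [hθv, hθv, hJe, map_sub, val_sub, val_sub, hvα (m + 1), hvα m, sub_zero, map_zero, sub_zero]
    rcases lt_trichotomy l m with h1 | h1 | h1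
    · rw [hv1 (m + 1) l (by omega), hv1 m l (by omega), sub_self, map_zero, if_neg (by omega)]
    · subst h1
      rw [hv1 (l + 1) l le_rfl, hv0 l l le_rfl, sub_zero, if_pos rfl]
    · rw [hv0 (m + 1) l (by omega), hv0 m l (by omega), sub_self, map_zero, if_neg (by omega)]

end Pool.Agent.R263.KD
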