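import Mathlib
import Pool.Agent.R263.KD.Defs

/-!
# Project KD: the weighted bilateral shift (statement)
-/

namespace Pool.Agent.R263.KD

/-- G: the weighted bilateral shift `N` over `X`, its inverse `N'`, the truncation `P`, the
eigenvectors `emb x` of `N` for the eigenvalue `1`, and the coordinatewise action `cl` of the
operators of `X`. -/
def StmtG : Prop :=
  ∀ (X : Type) [NormedAddCommGroup X] [NormedSpace ℝ X] [CompleteSpace X],
    ∃ (G : Type) (_ : NormedAddCommGroup G) (_ : NormedSpace ℝ G) (_ : CompleteSpace G)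
      (cl : (X →L[ℝ] X) →ₐ[ℝ] (G →L[ℝ] G)) (N N' P : G →L[ℝ] G) (emb : X →L[ℝ] G)
      (ev : G →L[ℝ] X),
      N * N' = 1 ∧ N' * N = 1 ∧ (∀ a, N * cl a = cl a * N) ∧ P * P = P ∧
      (∀ a, P * cl a = cl a * P) ∧ P * N * P = N * P ∧ (∀ x, ‖N (P x)‖ ≤ (1 / 2) * ‖P x‖) ∧
      (∀ x, P x = 0 → P (N' x) = 0 ∧ ‖N' x‖ ≤ (1 / 2) * ‖x‖) ∧
      (∀ x, N (emb x) = emb x) ∧ (∀ g, N g = g → g = emb (ev g)) ∧ (∀ x, ev (emb x) = x) ∧
      ∀ a x, cl a (emb x) = emb (a x)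

end Pool.Agent.R263.KD
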