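import Mathlib
import Pool.Agent.R263.KD.Defs

/-!
# Project KD: the matrix `τ` at `ν = 1`
-/

noncomputable section

namespace Pool.Agent.R263.KD

section

variable {A : Type} [CommRing A] [Algebra ℝ A]

theorem kap_one (t : A) : kap t (1 : A) = 1 := by
  unfold kap
  have : (1 + t) + 1 * (1 - t) = (2 : ℝ) • (1 : A) := by
    rw [two_smul]; ring
  rw [this, smul_smul]
  norm_num

theorem eta_one : eta (1 : A) = 0 := by
  unfold eta
  simp

theorem qq_one (t : A) : qq t (1 : A) = -((2 : ℝ) • t) := by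
  unfold qq
  have : (1 : A) * (1 - t) ^ 2 - (1 + t) ^ 2 = (-4 : ℝ) • t := by
    rw [Algebra.smul_def]
    rw [show (algebraMap ℝ A) (-4 : ℝ) = -4 by simp [map_ofNat]]
    ring
  rw [this, smul_smul, ← neg_smul]
  norm_num

theorem ss_one (t : A) : ss t (1 : A) 1 = 1 := by
  unfold ss
  have : (1 + t) * 1 + (1 - t) * 1 = (2 : ℝ) • (1 : A) := by
    rw [two_smul]; ring
  rw [this, smul_smul, ← add_smul]
  norm_num

theorem zz_one (t : A) : zz t (1 : A) = -((1 / 2 : ℝ) • t) := by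
  unfold zz
  have : (1 - t) * 1 - (1 + t) = (-2 : ℝ) • t := by
    rw [neg_smul, two_smul]; ring
  rw [this, smul_smul, ← neg_smul]
  norm_num

/-- half -/
theorem two_half (a : A) : (2 : ℝ) • a = 2 * a := by
  rw [two_smul, two_mul]

theorem tau_one (y1 y2 t : A) : tau y1 y2 t (1 : A) 1 =
    tauGen y1 y2 1 (-((2 : ℝ) • t)) y1 y2 (-((1 / 2 : ℝ) • t)) 1 0 := by
  unfold tau
  rw [kap_one, qq_one, ss_one, zz_one, eta_one, mul_one, mul_one]

/-- The eigenvector for the eigenvalue `1`. -/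
def cvec (y1 y2 t : A) : Fin 4 → A :=
  ![1, (1 / 2 : ℝ) • (1 - y1 * y1), -((1 / 2 : ℝ) • (y1 * y2)), y1 * t]

/-- The invariant row. -/
def rvec (y1 y2 t : A) : Fin 4 → A := ![0, y1, y2, -((1 / 2 : ℝ) • t)]

theorem exists_half (A : Type) [CommRing A] [Algebra ℝ A] :
    ∃ H : A, 2 * H = 1 ∧ ∀ a : A, (1 / 2 : ℝ) • a = H * a := by
  refine ⟨algebraMap ℝ A (1 / 2), ?_, fun a => by rw [Algebra.smul_def]⟩
  have h2 : (2 : A) = algebraMap ℝ A 2 := (map_ofNat (algebraMap ℝ A) 2).symm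
  rw [h2, ← map_mul]
  norm_num

theorem tau_cvec (y1 y2 t : A) (h : y1 * y1 + y2 * y2 + t * t = 1) (i : Fin 4) :
    ∑ j, tau y1 y2 t (1 : A) 1 i j * cvec y1 y2 t j = cvec y1 y2 t i := by
  rw [tau_one]
  obtain ⟨H, h2, hs⟩ := exists_half A
  rw [Fin.sum_univ_four]
  fin_cases i <;>
    simp only [tauGen, cvec, hs, two_half, Matrix.of_apply, Matrix.cons_val', Matrix.cons_val_zero,
      Matrix.cons_val_one, Matrix.cons_val, Matrix.cons_val_fin_one, Fin.zero_eta, Fin.mk_one,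
      Fin.reduceFinMk, Fin.isValue]
  · ring
  · linear_combination (-(1 - y1 ^ 2)) * h2 + (-(y1 ^ 2 * (2 - y2) * H)) * h
  · linear_combination (y1 * y2) * h2 + (-(H * y1 + y2 * (2 - y2) * H * y1)) * h
  · linear_combination (2 * t * (2 - y2) * H * y1) * h

theorem tau_rvec (y1 y2 t : A) (h : y1 * y1 + y2 * y2 + t * t = 1) (j : Fin 4) :
    ∑ i, rvec y1 y2 t i * tau y1 y2 t (1 : A) 1 i j = rvec y1 y2 t j := by
  rw [tau_one]
  obtain ⟨H, h2, hs⟩ := exists_half A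
  rw [Fin.sum_univ_four]
  fin_cases j <;>
    simp only [tauGen, rvec, hs, two_half, Matrix.of_apply, Matrix.cons_val', Matrix.cons_val_zero,
      Matrix.cons_val_one, Matrix.cons_val, Matrix.cons_val_fin_one, Fin.zero_eta, Fin.mk_one,
      Fin.reduceFinMk, Fin.isValue]
  · linear_combination (-y1) * h + (-(y1 * t ^ 2)) * h2
  · linear_combination (y1 * (2 - y2)) * h + (y1 * (2 - y2) * t ^ 2) * h2
  · linear_combination (2 * y2 - y2 ^ 2) * h + ((2 * y2 - y2 ^ 2) * t ^ 2) * h2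
  · linear_combination (-(H * t * (2 - y2))) * h + (-(H * t * (2 - y2) * t ^ 2)) * h2

theorem tau_row0 (y1 y2 t : A) (j : Fin 4) :
    tau y1 y2 t (1 : A) 1 0 j = if j = 0 then 1 else 0 := by
  rw [tau_one]
  fin_cases j <;> simp [tauGen]

theorem map_tau {A' : Type} [CommRing A'] [Algebra ℝ A'] (f : A →ₐ[ℝ] A') (y1 y2 t ν ν' : A)
    (i j : Fin 4) : f (tau y1 y2 t ν ν' i j) = tau (f y1) (f y2) (f t) (f ν) (f ν') i j := by
  have h2 : f 2 = 2 := map_ofNat f 2
  fin_cases i <;> fin_cases j <;> simp [tau, tauGen, kap, qq, ss, zz, eta, h2]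

theorem map_cvec {A' : Type} [CommRing A'] [Algebra ℝ A'] (f : A →ₐ[ℝ] A') (y1 y2 t : A)
    (i : Fin 4) : f (cvec y1 y2 t i) = cvec (f y1) (f y2) (f t) i := by
  fin_cases i <;> simp [cvec]

theorem map_rvec {A' : Type} [CommRing A'] [Algebra ℝ A'] (f : A →ₐ[ℝ] A') (y1 y2 t : A)
    (i : Fin 4) : f (rvec y1 y2 t i) = rvec (f y1) (f y2) (f t) i := by
  fin_cases i <;> simp [rvec]

end

end Pool.Agent.R263.KD
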