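import Mathlib
import Pool.Agent.R263.KD.Defs
import Pool.Agent.R263.KD.DefsG
import Pool.Agent.R263.KD.Q

/-!
# Project KD: assembly of the operator
-/

set_option maxHeartbeats 1000000

noncomputable section

namespace Pool.Agent.R263.KD

theorem exists_comm {R : Type} [Ring R] [Algebra ℝ R] (s : Set R)
    (hs : ∀ a ∈ s, ∀ b ∈ s, a * b = b * a) :
    ∃ (A : Type) (_ : CommRing A) (_ : Algebra ℝ A) (ι : A →ₐ[ℝ] R), Function.Injective ι ∧
      ∀ x ∈ s, ∃ a, ι a = x := by
  letI := Algebra.adjoinCommRingOfComm ℝ hs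
  exact ⟨Algebra.adjoin ℝ s, inferInstance, inferInstance, (Algebra.adjoin ℝ s).val,
    Subtype.val_injective, fun x hx => ⟨⟨x, Algebra.subset_adjoin hx⟩, rfl⟩⟩

section

variable {G : Type} [NormedAddCommGroup G] [NormedSpace ℝ G]

/-- A matrix of operators acting on `G⁴`. -/
def act (M : Fin 4 → Fin 4 → (G →L[ℝ] G)) : (Fin 4 → G) →L[ℝ] (Fin 4 → G) :=
  ContinuousLinearMap.pi fun i => ∑ j, (M i j).comp (ContinuousLinearMap.proj j)

theorem act_apply (M : Fin 4 → Fin 4 → (G →L[ℝ] G)) (b : Fin 4 → G) (i : Fin 4) :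
    act M b i = ∑ j, M i j (b j) := by
  simp [act, ContinuousLinearMap.sum_apply]

end

/-- The operator on a commutative algebra obtained from `N`, together with what is needed. -/
theorem stmtE (hG : StmtG) (h1 : StmtE1) (h2 : StmtE2) (h4 : StmtE4b) : StmtE := by
  intro X _ _ _ y1 y2 t h12 h13 h23 hsph hno
  obtain ⟨G, iG1, iG2, iG3, cl, N, N', P, emb, ev, hNN', hN'N, hNcl, hPP, hPcl, hPN, hPn, hN'n,
    hNemb, hNfix, hevemb, hclemb⟩ := hG X
  have hN'cl : ∀ a, N' * cl a = cl a * N' := by
    intro a
    calc N' * cl a = N' * cl a * (N * N') := by rw [hNN', mul_one]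
      _ = N' * (cl a * N) * N' := by simp only [mul_assoc]
      _ = N' * (N * cl a) * N' := by rw [hNcl]
      _ = (N' * N) * cl a * N' := by simp only [mul_assoc]
      _ = cl a * N' := by rw [hN'N, one_mul]
  have hcl : ∀ a b, a * b = b * a → cl a * cl b = cl b * cl a := by
    intro a b hab
    rw [← map_mul, hab, map_mul]
  obtain ⟨A, iA1, iA2, ι, hι, hex⟩ := exists_comm (R := G →L[ℝ] G)
    {cl y1, cl y2, cl t, N, N'} (by
      intro a ha b hb
      simp only [Set.mem_insert_iff, Set.mem_singleton_iff] at ha hb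
      rcases ha with rfl | rfl | rfl | rfl | rfl <;>
        rcases hb with rfl | rfl | rfl | rfl | rfl <;>
        first
          | rfl
          | exact hcl _ _ h12
          | exact hcl _ _ h13
          | exact hcl _ _ h23
          | exact (hcl _ _ h12).symm
          | exact (hcl _ _ h13).symm
          | exact (hcl _ _ h23).symm
          | exact hNcl _
          | exact (hNcl _).symm
          | exact hN'cl _
          | exact (hN'cl _).symm
          | exact hNN'.trans hN'N.symm
          | exact hN'N.trans hNN'.symm)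
  obtain ⟨a1, ha1⟩ := hex (cl y1) (by simp)
  obtain ⟨a2, ha2⟩ := hex (cl y2) (by simp)
  obtain ⟨a3, ha3⟩ := hex (cl t) (by simp)
  obtain ⟨ν, hν⟩ := hex N (by simp)
  obtain ⟨ν', hν'⟩ := hex N' (by simp)
  have rel1 : a1 * a1 + a2 * a2 + a3 * a3 = 1 := by
    apply hι
    simp only [map_add, map_mul, map_one, ha1, ha2, ha3]
    rw [← map_mul, ← map_mul, ← map_mul, ← map_add, ← map_add, hsph, map_one]
  have rel2 : ν * ν' = 1 := by
    apply hι
    rw [map_mul, hν, hν', hNN', map_one]
  have hτ := h4 A a1 a2 a3 ν ν' rel1 rel2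
  set τ := tau a1 a2 a3 ν ν' with hτdef
  have hττ : ∀ i k, ∑ j, τ i j * τ j k = if i = k then ν else 0 := by
    intro i k
    have := congrFun (congrFun hτ i) k
    rw [Matrix.mul_apply] at this
    rw [this, Matrix.smul_apply, Matrix.one_apply]
    split_ifs <;> simp
  set M : Fin 4 → Fin 4 → (G →L[ℝ] G) := fun i j => ι (τ i j) with hM
  have hMN' : ∀ i j g, M i j (N' g) = N' (M i j g) := by
    intro i j g
    have : M i j * N' = N' * M i j := by
      rw [hM, ← hν', ← map_mul, ← map_mul, mul_comm]
    exact congrArg (fun f : G →L[ℝ] G => f g) this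
  have hNN'a : ∀ g, N (N' g) = g := fun g => congrArg (fun f : G →L[ℝ] G => f g) hNN'
  have hN'Na : ∀ g, N' (N g) = g := fun g => congrArg (fun f : G →L[ℝ] G => f g) hN'N
  have hTT : ∀ (b : Fin 4 → G) i, act M (act M b) i = N (b i) := by
    intro b i
    rw [act_apply]
    simp only [act_apply, map_sum]
    rw [Finset.sum_comm]
    have : ∀ k, ∑ j, M i j (M j k (b k)) = (if i = k then N else 0) (b k) := by
      intro k
      have e : (∑ j, M i j * M j k) = if i = k then N else 0 := by
        simp only [hM, ← map_mul, ← map_sum, hττ]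
        split_ifs
        · exact hν
        · exact map_zero ι
      rw [← e, ContinuousLinearMap.sum_apply]
      rfl
    simp only [this]
    rw [Finset.sum_eq_single i]
    · simp
    · intro k _ hk
      rw [if_neg (Ne.symm hk)]
      rfl
    · simp
  set D' : (Fin 4 → G) →L[ℝ] (Fin 4 → G) :=
    ContinuousLinearMap.pi fun i => N'.comp (ContinuousLinearMap.proj i) with hD'
  have hD'a : ∀ b i, D' b i = N' (b i) := fun b i => rfl
  have hactD' : ∀ b, act M (D' b) = D' (act M b) := by
    intro b
    funext i
    rw [act_apply, hD'a, act_apply, map_sum]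
    exact Finset.sum_congr rfl (fun j _ => hMN' i j (b j))
  set T : (Fin 4 → G) ≃L[ℝ] (Fin 4 → G) := ContinuousLinearEquiv.equivOfInverse (act M)
    ((act M).comp D') (by
      intro b
      show act M (D' (act M b)) = b
      rw [hactD']
      funext i
      rw [hD'a, hTT, hN'Na]) (by
      intro b
      show act M (act M (D' b)) = b
      funext i
      rw [hTT, hD'a, hNN'a]) with hT
  have hTa : ∀ b, T b = act M b := fun b => rfl
  have hTT' : ∀ b i, T (T b) i = N (b i) := fun b i => hTT b i
  have hTs : ∀ b, T.symm (T.symm b) = D' b := by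
    intro b
    apply T.injective
    apply T.injective
    rw [T.apply_symm_apply, T.apply_symm_apply]
    funext i
    rw [hTT', hD'a, hNN'a]
  refine ⟨Fin 4 → G, inferInstance, inferInstance, inferInstance, T, ?_, ?_⟩
  · -- the structure
    refine h2 (Fin 4 → G) T
      (ContinuousLinearMap.pi fun i => P.comp (ContinuousLinearMap.proj i)) ?_ ?_ ?_
    · intro v
      funext i
      exact congrArg (fun f : G →L[ℝ] G => f (v i)) hPP
    · intro v hv
      have hvi : ∀ i, P (v i) = v i := fun i => congrFun hv i
      refine ⟨?_, ?_⟩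
      · funext i
        show P (T (T v) i) = T (T v) i
        rw [hTT', ← hvi i]
        exact congrArg (fun f : G →L[ℝ] G => f (v i)) hPN
      · rw [pi_norm_le_iff_of_nonneg (by positivity)]
        intro i
        rw [hTT', ← hvi i]
        refine (hPn (v i)).trans ?_
        rw [hvi i]
        gcongr
        exact norm_le_pi_norm v i
    · intro v hv
      have hvi : ∀ i, P (v i) = 0 := fun i => congrFun hv i
      rw [hTs]
      refine ⟨?_, ?_⟩
      · funext i
        exact (hN'n (v i) (hvi i)).1
      · rw [pi_norm_le_iff_of_nonneg (by positivity)]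
        intro i
        refine (hN'n (v i) (hvi i)).2.trans ?_
        gcongr
        exact norm_le_pi_norm v i
  · -- not generalized hyperbolic
    intro hgh
    obtain ⟨Φ, Ψ, hΦ, hΨ⟩ := h1 _ T hgh
    have hιemb : ∀ (a : A) x, ι a (emb x) = emb (ev (ι a (emb x))) := by
      intro a x
      apply hNfix
      have : N * ι a = ι a * N := by rw [← hν, ← map_mul, ← map_mul, mul_comm]
      have h3 := congrArg (fun f : G →L[ℝ] G => f (emb x)) this
      have h4 : N (ι a (emb x)) = ι a (N (emb x)) := h3
      rw [h4, hNemb]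
    have hN'emb : ∀ x, N' (emb x) = emb x := by
      intro x
      conv_lhs => rw [← hNemb x]
      exact hN'Na _
    let ψ : A →ₐ[ℝ] (X →L[ℝ] X) :=
      { toFun := fun a => ev.comp ((ι a).comp emb)
        map_one' := by
          ext x
          simp [hevemb]
        map_mul' := by
          intro a b
          ext x
          show ev (ι (a * b) (emb x)) = ev (ι a (emb (ev (ι b (emb x)))))
          rw [← hιemb b x, map_mul]
          rfl
        map_zero' := by
          ext x
          simp
        map_add' := by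
          intro a b
          ext x
          simp
        commutes' := by
          intro r
          ext x
          show ev (ι (algebraMap ℝ A r) (emb x)) = _
          rw [AlgHom.commutes, Algebra.algebraMap_eq_smul_one, Algebra.algebraMap_eq_smul_one]
          simp [hevemb] }
    have hψ : ∀ a x, ι a (emb x) = emb (ψ a x) := hιemb
    have hψ1 : ψ a1 = y1 := by
      ext x
      show ev (ι a1 (emb x)) = _
      rw [ha1, hclemb, hevemb]
    have hψ2 : ψ a2 = y2 := by
      ext x
      show ev (ι a2 (emb x)) = _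
      rw [ha2, hclemb, hevemb]
    have hψ3 : ψ a3 = t := by
      ext x
      show ev (ι a3 (emb x)) = _
      rw [ha3, hclemb, hevemb]
    have hψν : ψ ν = 1 := by
      ext x
      show ev (ι ν (emb x)) = _
      rw [hν, hNemb, hevemb]
      rfl
    have hψν' : ψ ν' = 1 := by
      ext x
      show ev (ι ν' (emb x)) = _
      rw [hν', hN'emb, hevemb]
      rfl
    -- quotient
    set I : Ideal A := RingHom.ker ψ with hI
    set π : A →ₐ[ℝ] (A ⧸ I) := Ideal.Quotient.mkₐ ℝ I with hπ
    have hπψ : ∀ a b : A, π a = π b → ψ a = ψ b := by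
      intro a b hab
      have h5 : a - b ∈ I := (Ideal.Quotient.mk_eq_mk_iff_sub_mem a b).1 hab
      rw [hI, RingHom.mem_ker, map_sub, sub_eq_zero] at h5
      exact h5
    have hπν : π ν = 1 := by
      rw [← map_one π]
      refine (Ideal.Quotient.mk_eq_mk_iff_sub_mem ν 1).2 ?_
      rw [hI, RingHom.mem_ker, map_sub, map_one, hψν, sub_self]
    have hπν' : π ν' = 1 := by
      rw [← map_one π]
      refine (Ideal.Quotient.mk_eq_mk_iff_sub_mem ν' 1).2 ?_
      rw [hI, RingHom.mem_ker, map_sub, map_one, hψν', sub_self]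
    have relπ : π a1 * π a1 + π a2 * π a2 + π a3 * π a3 = 1 := by
      rw [← map_mul, ← map_mul, ← map_mul, ← map_add, ← map_add, rel1, map_one]
    have key1 : ∀ i, ∑ j, ψ (τ i j) * ψ (cvec a1 a2 a3 j) = ψ (cvec a1 a2 a3 i) := by
      intro i
      have : ψ (∑ j, τ i j * cvec a1 a2 a3 j) = ψ (cvec a1 a2 a3 i) := by
        apply hπψ
        rw [map_sum, map_cvec]
        simp only [map_mul, map_cvec, hτdef, map_tau, hπν, hπν']
        exact tau_cvec _ _ _ relπ i
      rw [← this, map_sum]
      simp only [map_mul]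
    have key2 : ∀ j, ∑ i, ψ (rvec a1 a2 a3 i) * ψ (τ i j) = ψ (rvec a1 a2 a3 j) := by
      intro j
      have : ψ (∑ i, rvec a1 a2 a3 i * τ i j) = ψ (rvec a1 a2 a3 j) := by
        apply hπψ
        rw [map_sum, map_rvec]
        simp only [map_mul, map_rvec, hτdef, map_tau, hπν, hπν']
        exact tau_rvec _ _ _ relπ j
      rw [← this, map_sum]
      simp only [map_mul]
    have key3 : ∀ j, ψ (τ 0 j) = if j = 0 then 1 else 0 := by
      intro j
      have : ψ (τ 0 j) = ψ (if j = 0 then 1 else 0) := by
        apply hπψ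
        rw [hτdef, map_tau, hπν, hπν', tau_row0]
        split_ifs <;> simp
      rw [this]
      split_ifs <;> simp
    -- the eigenvectors
    set jp : X →L[ℝ] (Fin 4 → G) :=
      ContinuousLinearMap.pi fun i => emb.comp (ψ (cvec a1 a2 a3 i)) with hjp
    have hjpa : ∀ x i, jp x i = emb (ψ (cvec a1 a2 a3 i) x) := fun x i => rfl
    have hTjp : ∀ x, T (jp x) = jp x := by
      intro x
      funext i
      rw [hTa, act_apply, hjpa]
      simp only [hjpa, hM, hψ]
      rw [← map_sum]
      congr 1
      rw [← key1 i, ContinuousLinearMap.sum_apply]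
      rfl
    have hfix : ∀ b : Fin 4 → G, T b = -b → (∀ i, b i = emb (ev (b i))) ∧
        ev (b 0) = 0 ∧ y1 (ev (b 1)) + y2 (ev (b 2)) - (1 / 2 : ℝ) • t (ev (b 3)) = 0 := by
      intro b hb
      have e1 : ∀ i, b i = emb (ev (b i)) := by
        intro i
        apply hNfix
        rw [← hTT' b i, hb, map_neg, hb, neg_neg]
      have e2 : ∀ i, ∑ j, ψ (τ i j) (ev (b j)) = -(ev (b i)) := by
        intro i
        have e3 : ∑ j, M i j (b j) = -(b i) := by
          rw [← act_apply, ← hTa, hb]
          rfl
        have e4 : ∑ j, M i j (b j) = emb (∑ j, ψ (τ i j) (ev (b j))) := by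
          rw [map_sum]
          refine Finset.sum_congr rfl (fun j _ => ?_)
          conv_lhs => rw [e1 j]
          exact hψ _ _
        rw [e4] at e3
        rw [← hevemb (∑ j, ψ (τ i j) (ev (b j))), e3, map_neg]
      refine ⟨e1, ?_, ?_⟩
      · have e5 := e2 0
        simp only [key3] at e5
        rw [Finset.sum_eq_single 0] at e5
        · simp only [if_true, ContinuousLinearMap.one_apply] at e5
          have : (2 : ℝ) • ev (b 0) = 0 := by
            rw [two_smul]
            nth_rewrite 1 [e5]
            simp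
          simpa using this
        · intro j _ hj
          rw [if_neg hj]
          rfl
        · simp
      · set L : X := ∑ j, ψ (rvec a1 a2 a3 j) (ev (b j)) with hL
        have e6 : L = -L := by
          calc L = ∑ j, (∑ i, ψ (rvec a1 a2 a3 i) * ψ (τ i j)) (ev (b j)) := by
                rw [hL]
                exact Finset.sum_congr rfl (fun j _ => by rw [key2 j])
            _ = ∑ j, ∑ i, ψ (rvec a1 a2 a3 i) (ψ (τ i j) (ev (b j))) := by
                refine Finset.sum_congr rfl (fun j _ => ?_)
                rw [ContinuousLinearMap.sum_apply]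
                rfl
            _ = ∑ i, ψ (rvec a1 a2 a3 i) (∑ j, ψ (τ i j) (ev (b j))) := by
                rw [Finset.sum_comm]
                exact Finset.sum_congr rfl (fun i _ => by rw [map_sum])
            _ = ∑ i, -(ψ (rvec a1 a2 a3 i) (ev (b i))) :=
                Finset.sum_congr rfl (fun i _ => by rw [e2 i, map_neg])
            _ = -L := by rw [Finset.sum_neg_distrib]
        have e7 : L = 0 := by
          have : (2 : ℝ) • L = 0 := by
            rw [two_smul]
            nth_rewrite 1 [e6]
            simp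
          simpa using this
        rw [hL, Fin.sum_univ_four] at e7
        simp only [rvec, Matrix.cons_val_zero, Matrix.cons_val_one, Matrix.cons_val, map_zero,
          hψ1, hψ2, map_neg, map_smul, hψ3, ContinuousLinearMap.zero_apply, zero_add] at e7
        rw [← e7]
        simp [sub_eq_add_neg]
    apply hno
    -- the maps
    let pr : Fin 4 → (Fin 4 → G) →L[ℝ] G := fun i => ContinuousLinearMap.proj i
    refine ⟨ev.comp ((pr 1).comp (Φ.comp jp)), ev.comp ((pr 2).comp (Φ.comp jp)),
      (-(1 / 2 : ℝ)) • ev.comp ((pr 3).comp (Φ.comp jp)),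
      ev.comp ((pr 0).comp (Ψ.comp ((ContinuousLinearMap.single ℝ (fun _ => G) 1).comp emb))),
      ev.comp ((pr 0).comp (Ψ.comp ((ContinuousLinearMap.single ℝ (fun _ => G) 2).comp emb))),
      (-(2 : ℝ)) • ev.comp
        ((pr 0).comp (Ψ.comp ((ContinuousLinearMap.single ℝ (fun _ => G) 3).comp emb))), ?_, ?_⟩
    · ext x
      have h6 := (hfix (Φ (jp x)) (hΦ _)).2.2
      show y1 (ev (Φ (jp x) 1)) + y2 (ev (Φ (jp x) 2)) +
        t ((-(1 / 2 : ℝ)) • ev (Φ (jp x) 3)) = 0
      rw [map_smul, neg_smul, ← sub_eq_add_neg]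
      exact h6
    · ext x
      obtain ⟨e1, e2, -⟩ := hfix (Φ (jp x)) (hΦ _)
      have e4 : ev (Ψ (Φ (jp x)) 0) = x := by
        rw [hΨ _ (hTjp x), hjpa]
        simp [cvec, hevemb]
      show ev (Ψ (Pi.single 1 (emb (ev (Φ (jp x) 1)))) 0) +
        ev (Ψ (Pi.single 2 (emb (ev (Φ (jp x) 2)))) 0) +
        (-(2 : ℝ)) • ev (Ψ (Pi.single 3 (emb ((-(1 / 2 : ℝ)) • ev (Φ (jp x) 3)))) 0) = x
      set b := Φ (jp x) with hb
      have e3 : b = Pi.single 1 (emb (ev (b 1))) + Pi.single 2 (emb (ev (b 2))) +
          Pi.single 3 (emb (ev (b 3))) := by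
        funext i
        fin_cases i
        · simp only [Fin.zero_eta, Fin.isValue, Pi.add_apply]
          rw [e1 0, e2]
          simp
        · simp [← e1 1]
        · simp [← e1 2]
        · simp [← e1 3]
      have e5 : (Pi.single 3 (emb ((-(1 / 2 : ℝ)) • ev (b 3))) : Fin 4 → G) =
          (-(1 / 2 : ℝ)) • Pi.single 3 (emb (ev (b 3))) := by
        rw [map_smul, Pi.single_smul]
      rw [e5, map_smul, Pi.smul_apply, map_smul, smul_smul]
      have e6 : (-(2 : ℝ)) * (-(1 / 2)) = 1 := by norm_num
      rw [e6, one_smul]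
      have e7 : Ψ b = Ψ (Pi.single 1 (emb (ev (b 1)))) + Ψ (Pi.single 2 (emb (ev (b 2)))) +
          Ψ (Pi.single 3 (emb (ev (b 3)))) := by
        rw [← map_add, ← map_add, ← e3]
      rw [← e4, e7, Pi.add_apply, Pi.add_apply, map_add, map_add]

end Pool.Agent.R263.KD
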