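import Pool.Agent.R263.KD.Defs

/-!
# KD-E1: generalized hyperbolicity gives maps between `ker (T - 1)` and `ker (T + 1)`
-/

open Set Filter Topology

noncomputable section

namespace Pool.Agent.R263.KD

namespace E1

theorem isUnit_one_sub_of_pow {R : Type*} [NormedRing R] [CompleteSpace R] (x : R) (m : ℕ)
    (h : ‖x ^ m‖ < 1) : IsUnit (1 - x) := by
  have h1 : IsUnit (1 - x ^ m) := isUnit_one_sub_of_norm_lt_one h
  have h2 : (1 - x) * ∑ i ∈ Finset.range m, x ^ i = 1 - x ^ m := mul_neg_geom_sum x m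
  have h3 : (∑ i ∈ Finset.range m, x ^ i) * (1 - x) = 1 - x ^ m := geom_sum_mul_neg x m
  have h4 : Commute (1 - x) (∑ i ∈ Finset.range m, x ^ i) := h2.trans h3.symm
  rw [← h2] at h1
  exact (h4.isUnit_mul_iff.1 h1).1

variable {B : Type} [NormedAddCommGroup B] [NormedSpace ℝ B]

/-- inverses of `1 - A` and `1 + A` on an invariant subspace -/
theorem inverses [CompleteSpace B] (T : B →L[ℝ] B) (E : Submodule ℝ B) (hE : IsClosed (E : Set B))
    (hinv : ∀ v ∈ E, T v ∈ E) (m : ℕ) (r : ℝ) (hr : r < 1) (h : ∀ v ∈ E, ‖T^[m] v‖ ≤ r * ‖v‖) :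
    ∃ G G' : E →L[ℝ] E, (∀ a : E, (G a : B) - T (G a : B) = a) ∧
      (∀ a b : E, (b : B) = (a : B) - T (a : B) → G b = a) ∧
      (∀ a : E, (G' a : B) + T (G' a : B) = a) := by
  have : CompleteSpace E := hE.completeSpace_coe
  let A : E →L[ℝ] E := (T.comp E.subtypeL).codRestrict E (fun v => hinv v v.2)
  have hA : ∀ v : E, ((A v : E) : B) = T (v : B) := fun v => rfl
  have hpow : ∀ (n : ℕ) (v : E), (((A ^ n) v : E) : B) = T^[n] (v : B) := by
    intro n
    induction n with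
    | zero => intro v; rfl
    | succ n ih =>
      intro v
      rw [pow_succ, Function.iterate_succ_apply, ← hA, ← ih]
      rfl
  have hnorm : ‖A ^ m‖ < 1 := by
    refine lt_of_le_of_lt (ContinuousLinearMap.opNorm_le_bound _ (le_max_right r 0) fun v => ?_)
      (max_lt hr one_pos)
    have h1 := h v v.2
    rw [← hpow] at h1
    refine le_trans (le_trans (le_of_eq rfl) h1) ?_
    exact mul_le_mul_of_nonneg_right (le_max_left r 0) (norm_nonneg _)
  have u1 : IsUnit (1 - A) := isUnit_one_sub_of_pow A m hnorm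
  have u2 : IsUnit (1 - -A) := by
    refine isUnit_one_sub_of_pow (-A) m ?_
    rcases Nat.even_or_odd m with he | ho
    · have h9 : (-A) ^ m = A ^ m := he.neg_pow A
      rw [h9]; exact hnorm
    · have h9 : (-A) ^ m = -(A ^ m) := ho.neg_pow A
      rw [h9]
      refine lt_of_le_of_lt ?_ hnorm
      refine ContinuousLinearMap.opNorm_le_bound _ (ContinuousLinearMap.opNorm_nonneg _) fun v => ?_
      have h10 : ‖(-(A ^ m)) v‖ = ‖(A ^ m) v‖ := norm_neg ((A ^ m) v)
      rw [h10]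
      exact (A ^ m).le_opNorm v
  obtain ⟨g, hg⟩ := u1
  obtain ⟨g', hg'⟩ := u2
  refine ⟨((g⁻¹ : (E →L[ℝ] E)ˣ) : E →L[ℝ] E), ((g'⁻¹ : (E →L[ℝ] E)ˣ) : E →L[ℝ] E), ?_, ?_, ?_⟩
  · intro a
    have h1 : (1 - A) * ((g⁻¹ : (E →L[ℝ] E)ˣ) : E →L[ℝ] E) = 1 := by rw [← hg]; simp
    have h2 := congrArg (fun f : E →L[ℝ] E => ((f a : E) : B)) h1
    exact h2
  · intro a b hab
    have h1 : ((g⁻¹ : (E →L[ℝ] E)ˣ) : E →L[ℝ] E) * (1 - A) = 1 := by rw [← hg]; simp
    have h2 := congrArg (fun f : E →L[ℝ] E => f a) h1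
    have h3 : b = (1 - A) a := by
      apply Subtype.ext
      rw [hab]; rfl
    rw [h3]
    exact h2
  · intro a
    have h1 : (1 - -A) * ((g'⁻¹ : (E →L[ℝ] E)ˣ) : E →L[ℝ] E) = 1 := by rw [← hg']; simp
    rw [sub_neg_eq_add] at h1
    have h2 := congrArg (fun f : E →L[ℝ] E => ((f a : E) : B)) h1
    exact h2

end E1

open E1 in
theorem stmtE1 : StmtE1 := by
  intro B _ _ _ T hT
  obtain ⟨Es, Eu, hEs, hEu, hcompl, hs, hu, m, hm, r, hr, hrs, hru⟩ := hT
  have htop := Submodule.IsCompl.isTopCompl_of_isClosed hcompl hEs hEu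
  obtain ⟨G, G', hG1, hG2, hG'⟩ := inverses (T : B →L[ℝ] B) Es hEs hs m r hr hrs
  obtain ⟨H, H', hH1, hH2, hH'⟩ := inverses (T.symm : B →L[ℝ] B) Eu hEu hu m r hr hru
  let Ps : B →L[ℝ] Es := Es.projectionOntoL Eu htop
  let Pu : B →L[ℝ] Eu := Eu.projectionOntoL Es htop.symm
  have hadd : ∀ x : B, (Ps x : B) + (Pu x : B) = x := fun x =>
    Submodule.projection_add_projection_eq_self hcompl x
  have hPs : ∀ a : Es, Ps a = a := fun a => Submodule.projectionOntoL_apply_left htop a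
  have hPu : ∀ a : Eu, Pu a = a := fun a => Submodule.projectionOntoL_apply_left htop.symm a
  have hPs0 : ∀ a : Eu, Ps a = 0 := fun a => Submodule.projectionOntoL_apply_right htop a
  have hPu0 : ∀ a : Es, Pu a = 0 := fun a => Submodule.projectionOntoL_apply_right htop.symm a
  -- the right inverses
  let R1 : B →L[ℝ] B := Es.subtypeL.comp (G.comp Ps) -
    (T.symm : B →L[ℝ] B).comp (Eu.subtypeL.comp (H.comp Pu))
  let R2 : B →L[ℝ] B := -(Es.subtypeL.comp (G'.comp Ps)) -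
    (T.symm : B →L[ℝ] B).comp (Eu.subtypeL.comp (H'.comp Pu))
  have hR1 : ∀ x, R1 x = (G (Ps x) : B) - T.symm (H (Pu x) : B) := fun x => rfl
  have hR2 : ∀ x, R2 x = -(G' (Ps x) : B) - T.symm (H' (Pu x) : B) := fun x => rfl
  -- `(-1 - T) R2 = 1`
  have key2 : ∀ x, -(R2 x) - T (R2 x) = x := by
    intro x
    have e1 := hG' (Ps x)
    have e2 := hH' (Pu x)
    have e1' : (G' (Ps x) : B) + T (G' (Ps x) : B) = (Ps x : B) := e1
    have e2' : (H' (Pu x) : B) + T.symm (H' (Pu x) : B) = (Pu x : B) := e2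
    rw [hR2, map_sub, map_neg, T.apply_symm_apply]
    calc -(-(G' (Ps x) : B) - T.symm (H' (Pu x) : B))
          - (-T (G' (Ps x) : B) - (H' (Pu x) : B))
        = ((G' (Ps x) : B) + T (G' (Ps x) : B))
          + ((H' (Pu x) : B) + T.symm (H' (Pu x) : B)) := by abel
      _ = x := by rw [e1', e2', hadd]
  -- `R1 (1 - T) y = y` on the range of `R2`
  have key1s : ∀ a : Es, R1 ((a : B) - T (a : B)) = a := by
    intro a
    let b : Es := ⟨(a : B) - T (a : B), Es.sub_mem a.2 (hs _ a.2)⟩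
    have e1 : R1 ((a : B) - T (a : B)) = R1 (b : B) := rfl
    rw [e1, hR1, hPs, hPu0, map_zero, hG2 a b rfl]
    simp
  have key1u : ∀ c : Eu, R1 (T.symm (c : B) - (c : B)) = T.symm (c : B) := by
    intro c
    let b : Eu := ⟨(c : B) - T.symm (c : B), Eu.sub_mem c.2 (hu _ c.2)⟩
    have e1 : R1 (T.symm (c : B) - (c : B)) = -R1 (b : B) := by
      rw [← map_neg]
      congr 1
      show _ = -((c : B) - T.symm (c : B))
      abel
    rw [e1, hR1, hPu, hPs0, map_zero, hH2 c b rfl]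
    simp
  have key1 : ∀ x, R1 (R2 x - T (R2 x)) = R2 x := by
    intro x
    have e1 : R2 x - T (R2 x) = -((G' (Ps x) : B) - T (G' (Ps x) : B))
        - (T.symm (H' (Pu x) : B) - (H' (Pu x) : B)) := by
      rw [hR2, map_sub, map_neg, T.apply_symm_apply]
      abel
    rw [e1, map_sub, map_neg, key1s, key1u, hR2]
  refine ⟨1 + R2 + R2.comp (T : B →L[ℝ] B), 1 - R1 + R1.comp (T : B →L[ℝ] B), ?_, ?_⟩
  · intro v
    have e : (1 + R2 + R2.comp (T : B →L[ℝ] B)) v = v + R2 (v + T v) := by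
      rw [map_add, ← add_assoc]; rfl
    rw [e, map_add]
    have h1 := key2 (v + T v)
    have h2 : T (R2 (v + T v)) = -(R2 (v + T v)) - (v + T v) := by
      rw [← h1]
      have h3 := h1
      rw [h1]
      exact eq_sub_of_add_eq (by rw [add_comm]; exact (sub_eq_iff_eq_add.1 h3).symm)
    rw [h2]; abel
  · intro v hv
    have e : (1 + R2 + R2.comp (T : B →L[ℝ] B)) v = v + R2 (v + T v) := by
      rw [map_add, ← add_assoc]; rfl
    have e' : ∀ w, (1 - R1 + R1.comp (T : B →L[ℝ] B)) w = w - R1 (w - T w) := by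
      intro w
      rw [map_sub]
      show w - R1 w + R1 (T w) = _
      abel
    rw [e, e']
    have h1 : v + R2 (v + T v) - T (v + R2 (v + T v))
        = R2 (v + T v) - T (R2 (v + T v)) := by
      have h0 : T (v + R2 (v + T v)) = v + T (R2 (v + T v)) :=
        (map_add T v (R2 (v + T v))).trans (by rw [hv])
      rw [h0]; abel
    rw [h1, key1]
    abel

end Pool.Agent.R263.KD
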