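import Mathlib
import Pool.Agent.R263.KD.Defs

/-!
# KD-E2 (helper139): a splitting for `T ^ 2` gives a generalized structure for the constant
sequence `T`
-/

set_option autoImplicit false

open Set Filter Topology

noncomputable section

namespace Pool.Agent.R263.KD

namespace E2

variable {B : Type} [NormedAddCommGroup B] [NormedSpace ℝ B]

theorem fwd_eq (T : B ≃L[ℝ] B) (k : ℤ) (n : ℕ) (v : B) :
    fwd (fun _ : ℤ => T) k n v = T^[n] v := by
  induction n with
  | zero => rfl
  | succ n ih =>
    rw [Function.iterate_succ_apply']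
    change T (fwd (fun _ : ℤ => T) k n v) = _
    rw [ih]

theorem bwd_eq (T : B ≃L[ℝ] B) (k : ℤ) (n : ℕ) (v : B) :
    bwd (fun _ : ℤ => T) k n v = T.symm^[n] v := by
  induction n with
  | zero => rfl
  | succ n ih =>
    rw [Function.iterate_succ_apply']
    change T.symm (bwd (fun _ : ℤ => T) k n v) = _
    rw [ih]

/-- decay along an invariant property -/
theorem decay (T : B ≃L[ℝ] B) (a : ℝ) (ha : ∀ v, ‖T v‖ ≤ a * ‖v‖) (ha0 : 0 ≤ a) (R : B → Prop)
    (hR : ∀ v, R v → R (T (T v)) ∧ ‖T (T v)‖ ≤ (1 / 2) * ‖v‖) (n : ℕ) :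
    ∀ v, R v → ‖T^[n] v‖ ≤ (4 / 3 * (1 + a)) * (3 / 4) ^ n * ‖v‖ := by
  induction n using Nat.twoStepInduction with
  | zero =>
    intro v _
    have := norm_nonneg v
    simp only [Function.iterate_zero, id_eq, pow_zero, mul_one]
    nlinarith
  | one =>
    intro v _
    have := norm_nonneg v
    have h := ha v
    simp only [Function.iterate_one, pow_one]
    nlinarith
  | more n ih _ =>
    intro v hv
    obtain ⟨h1, h2⟩ := hR v hv
    have h3 := ih _ h1
    have e : T^[n + 2] v = T^[n] (T (T v)) := rfl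
    rw [e]
    refine h3.trans ?_
    have hp : 0 ≤ (4 / 3 * (1 + a)) * (3 / 4 : ℝ) ^ n := by positivity
    have hv0 := norm_nonneg v
    calc (4 / 3 * (1 + a)) * (3 / 4 : ℝ) ^ n * ‖T (T v)‖
        ≤ (4 / 3 * (1 + a)) * (3 / 4 : ℝ) ^ n * ((9 / 16) * ‖v‖) := by
          refine mul_le_mul_of_nonneg_left (h2.trans ?_) hp
          nlinarith
      _ = (4 / 3 * (1 + a)) * (3 / 4 : ℝ) ^ (n + 2) * ‖v‖ := by ring

end E2

open E2

theorem stmtE2 : StmtE2 := by
  intro B _ _ _ T P hPP h1 h2
  set S : B ≃L[ℝ] B := T.symm with hS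
  have hST : ∀ v, S (T v) = v := fun v => T.symm_apply_apply v
  have hTS : ∀ v, T (S v) = v := fun v => T.apply_symm_apply v
  set P' : B →L[ℝ] B := ((T : B →L[ℝ] B).comp P).comp (S : B →L[ℝ] B) with hP'
  have hP'v : ∀ v, P' v = T (P (S v)) := fun v => rfl
  set a : ℝ := ‖(T : B →L[ℝ] B)‖ with hadef
  set b : ℝ := ‖(S : B →L[ℝ] B)‖ with hbdef
  have ha0 : 0 ≤ a := norm_nonneg _
  have hb0 : 0 ≤ b := norm_nonneg _
  have ha : ∀ v, ‖T v‖ ≤ a * ‖v‖ := fun v => (T : B →L[ℝ] B).le_opNorm v
  have hb : ∀ v, ‖S v‖ ≤ b * ‖v‖ := fun v => (S : B →L[ℝ] B).le_opNorm v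
  have dT := decay T a ha ha0 (fun v => P v = v) h1
  have dS := decay S b hb hb0 (fun v => P v = 0) h2
  set D : ℝ := 4 / 3 * (1 + a) with hD
  set D' : ℝ := 4 / 3 * (1 + b) with hD'
  have hD0 : 0 < D := by positivity
  have hD0' : 0 < D' := by positivity
  have hP0 := norm_nonneg P
  have hP0' := norm_nonneg P'
  -- the facts for the conjugate projection
  have key1 : ∀ v, P' v = v → P (S v) = S v := by
    intro v hv
    rw [hP'v] at hv
    rw [← hST (P (S v)), hv]
  have key2 : ∀ v, P' v = 0 → P (S v) = 0 := by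
    intro v hv
    rw [hP'v] at hv
    rw [← hST (P (S v)), hv, map_zero]
  set C : ℝ := 1 + ‖P‖ + ‖P'‖ + D * (1 + b) + D' * (1 + 4 / 3 * b) with hC
  have hDb : 0 ≤ D * b := by positivity
  have hDb' : 0 ≤ D' * b := by positivity
  have hC0 : 0 < C := by
    rw [hC]
    nlinarith
  have hCP : ‖P‖ + 1 ≤ C := by
    rw [hC]
    nlinarith
  have hCP' : ‖P'‖ + 1 ≤ C := by
    rw [hC]
    nlinarith
  refine ⟨C, 3 / 4, hC0, by norm_num, by norm_num, fun k => if Even k then P else P',
    fun k => 1 - (if Even k then P else P'), ?_, ?_, ?_, ?_, ?_⟩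
  · intro k
    have main : ∀ R : B →L[ℝ] B, (∀ v, R (R v) = R v) → ‖R‖ + 1 ≤ C →
        (∀ v, R (R v) = R v) ∧ (∀ v, (1 - R) ((1 - R) v) = (1 - R) v) ∧
        (∀ v, R v + (1 - R) v = v) ∧ ‖R‖ ≤ C ∧ ‖1 - R‖ ≤ C := by
      intro R hR hC
      refine ⟨hR, ?_, ?_, by linarith, ?_⟩
      · intro v
        simp [hR]
      · intro v
        simp
      · refine (norm_sub_le _ _).trans ?_
        have : ‖(1 : B →L[ℝ] B)‖ ≤ 1 := ContinuousLinearMap.norm_id_le
        linarith
    by_cases hk : Even k
    · simp only [hk, if_true]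
      exact main P hPP hCP
    · simp only [hk, if_false]
      refine main P' ?_ hCP'
      intro v
      rw [hP'v (P' v), hP'v v, hST, hPP]
  · intro k v hv
    by_cases hk : Even k
    · have hk1 : ¬ Even (k + 1) := by
        rw [Int.even_add_one]
        exact not_not.2 hk
      simp only [hk, if_true] at hv
      simp only [hk1, if_false]
      rw [hP'v, hST, hv]
    · have hk1 : Even (k + 1) := by
        rw [Int.even_add_one]
        exact hk
      simp only [hk, if_false] at hv
      simp only [hk1, if_true]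
      have h := (h1 _ (key1 v hv)).1
      rwa [hTS] at h
  · intro k v hv
    by_cases hk : Even k
    · have hk1 : ¬ Even (k + 1) := by
        rw [Int.even_add_one]
        exact not_not.2 hk
      simp only [hk1, if_false] at hv
      simp only [hk, if_true]
      have hv' : P' v = 0 := by
        have : v - P' v = v := hv
        simpa using this
      change S v - P (S v) = S v
      rw [key2 v hv', sub_zero]
    · have hk1 : Even (k + 1) := by
        rw [Int.even_add_one]
        exact hk
      simp only [hk1, if_true] at hv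
      simp only [hk, if_false]
      have hv' : P v = 0 := by
        have : v - P v = v := hv
        simpa using this
      have h := (h2 v hv').1
      change S v - P' (S v) = S v
      rw [hP'v, h, map_zero, sub_zero]
  · intro k n v _ hv
    rw [fwd_eq]
    have hv0 := norm_nonneg v
    have hpow : (0 : ℝ) ≤ (3 / 4) ^ n := by positivity
    by_cases hk : Even k
    · simp only [hk, if_true] at hv
      refine (dT n v hv).trans ?_
      refine mul_le_mul_of_nonneg_right (mul_le_mul_of_nonneg_right ?_ hpow) hv0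
      rw [hC]
      nlinarith
    · simp only [hk, if_false] at hv
      have h3 := dT (n + 1) (S v) (key1 v hv)
      have e : T^[n + 1] (S v) = T^[n] v := by
        rw [Function.iterate_succ_apply, hTS]
      rw [e] at h3
      refine h3.trans ?_
      calc D * (3 / 4) ^ (n + 1) * ‖S v‖ ≤ D * (3 / 4) ^ (n + 1) * (b * ‖v‖) :=
            mul_le_mul_of_nonneg_left (hb v) (by positivity)
        _ = (3 / 4 * (D * b)) * (3 / 4) ^ n * ‖v‖ := by ring
        _ ≤ C * (3 / 4) ^ n * ‖v‖ := by
            refine mul_le_mul_of_nonneg_right (mul_le_mul_of_nonneg_right ?_ hpow) hv0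
            rw [hC]
            nlinarith
  · intro k n v hn hv
    rw [bwd_eq]
    have hv0 := norm_nonneg v
    have hpow : (0 : ℝ) ≤ (3 / 4) ^ n := by positivity
    by_cases hk : Even k
    · simp only [hk, if_true] at hv
      have hv' : P v = 0 := by
        have : v - P v = v := hv
        simpa using this
      refine (dS n v hv').trans ?_
      refine mul_le_mul_of_nonneg_right (mul_le_mul_of_nonneg_right ?_ hpow) hv0
      rw [hC]
      nlinarith
    · simp only [hk, if_false] at hv
      have hv' : P' v = 0 := by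
        have : v - P' v = v := hv
        simpa using this
      obtain ⟨m, rfl⟩ : ∃ m, n = m + 1 := ⟨n - 1, by omega⟩
      have h3 := dS m (S v) (key2 v hv')
      have e : S^[m + 1] v = S^[m] (S v) := Function.iterate_succ_apply _ _ _
      rw [e]
      refine h3.trans ?_
      calc D' * (3 / 4) ^ m * ‖S v‖ ≤ D' * (3 / 4) ^ m * (b * ‖v‖) :=
            mul_le_mul_of_nonneg_left (hb v) (by positivity)
        _ = (4 / 3 * (D' * b)) * (3 / 4) ^ (m + 1) * ‖v‖ := by ring
        _ ≤ C * (3 / 4) ^ (m + 1) * ‖v‖ := by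
            refine mul_le_mul_of_nonneg_right (mul_le_mul_of_nonneg_right ?_ hpow) hv0
            rw [hC]
            nlinarith

end Pool.Agent.R263.KD
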