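import Pool.Agent.R263.KD.Defs

/-!
MP_dd2ee2_an, piece E4: a 4x4 matrix identity over a commutative ring.
-/

set_option autoImplicit false
open scoped BoundedContinuousFunction
open Set Filter Topology

namespace Pool.Agent.R263.KD

theorem stmtE4a : StmtE4a := by
  intro A _ _ y1 y2 κ q z1 z2 z3 ν η r1 r2
  ext i j
  rw [Matrix.mul_apply, Fin.sum_univ_four, Matrix.smul_apply, smul_eq_mul]
  fin_cases i <;> fin_cases j <;> simp [tauGen, -mul_eq_mul_left_iff, -mul_eq_zero]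
  · linear_combination (0) * r1 + ((-y1*z1)) * r2
  · linear_combination (0) * r1 + (2*y1*κ*z1 + (-y1*z1*z2)) * r2
  · linear_combination (0) * r1 + ((-y1*κ^2) + 2*y1*κ*z2 + (-y1*z2^2) + y1*ν) * r2
  · linear_combination (0) * r1 + ((-y1*y2*η) + 2*y1*κ*z3 + (-y1*z2*z3)) * r2
  · linear_combination ((-2*y1*κ*z1) + y1*z1*z2) * r1 + ((-y1*y2*z1)) * r2
  · linear_combination (4*y1*κ^2*z1 + (-4*y1*κ*z1*z2) + y1*z1*z2^2) * r1 + (2*y1*y2*κ*z1 + (-y1*y2*z1*z2)) * r2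
  · linear_combination (4*y1*κ^2*z2 + 2*y1*κ*q*η + (-4*y1*κ*z2^2) + (-y1*q*z2*η) + y1*z2^3) * r1 + (2*y1^2*κ*z1 + (-y1^2*z1*z2) + (-y1*y2*κ^2) + 4*y1*y2*κ*z2 + (-2*y1*y2*z2^2) + y1*y2*ν + 2*y1*κ*q*z3 + (-2*y1*κ) + (-y1*q*z2*z3) + y1*z2) * r2
  · linear_combination ((-2*y1*y2*κ*η) + y1*y2*z2*η + 4*y1*κ^2*z3 + (-4*y1*κ*z2*z3) + y1*z2^2*z3 + y1*η) * r1 + ((-y1*y2^2*η) + 2*y1*y2*κ*z3 + (-y1*y2*z2*z3) + y1*z3) * r2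
  · linear_combination ((-2*y2*κ*z1) + y2*z1*z2 + (-z1)) * r1 + ((-y2^2*z1)) * r2
  · linear_combination (4*y2*κ^2*z1 + (-4*y2*κ*z1*z2) + y2*z1*z2^2 + 2*κ*z1 + (-z1*z2)) * r1 + (2*y2^2*κ*z1 + (-y2^2*z1*z2)) * r2
  · linear_combination (4*y2*κ^2*z2 + 2*y2*κ*q*η + (-4*y2*κ*z2^2) + (-y2*q*z2*η) + y2*z2^3 + 2*κ*z2 + q*η + (-z2^2)) * r1 + (2*y1*y2*κ*z1 + (-y1*y2*z1*z2) + y1*z1 + (-y2^2*κ^2) + 4*y2^2*κ*z2 + (-2*y2^2*z2^2) + y2^2*ν + 2*y2*κ*q*z3 + (-2*y2*κ) + (-y2*q*z2*z3) + 2*y2*z2 + q*z3 + (-1)) * r2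
  · linear_combination ((-2*y2^2*κ*η) + y2^2*z2*η + 4*y2*κ^2*z3 + (-4*y2*κ*z2*z3) + y2*z2^2*z3 + 2*κ*z3 + (-z2*z3)) * r1 + ((-y2^3*η) + 2*y2^2*κ*z3 + (-y2^2*z2*z3) + y2*z3) * r2
  · linear_combination ((-2*κ*q*z1) + q*z1*z2) * r1 + ((-y2*q*z1)) * r2
  · linear_combination (4*κ^2*q*z1 + (-4*κ*q*z1*z2) + q*z1*z2^2) * r1 + (2*y2*κ*q*z1 + (-y2*q*z1*z2)) * r2
  · linear_combination (4*κ^2*q*z2 + 2*κ*q^2*η + (-4*κ*q*z2^2) + (-q^2*z2*η) + q*z2^3) * r1 + (2*y1*κ*q*z1 + (-y1*q*z1*z2) + (-y2*κ^2*q) + 4*y2*κ*q*z2 + (-2*y2*q*z2^2) + y2*q*ν + 2*κ*q^2*z3 + (-2*κ*q) + (-q^2*z2*z3) + q*z2) * r2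
  · linear_combination ((-2*y2*κ*q*η) + y2*q*z2*η + 4*κ^2*q*z3 + (-4*κ*q*z2*z3) + q*z2^2*z3 + q*η) * r1 + ((-y2^2*q*η) + 2*y2*κ*q*z3 + (-y2*q*z2*z3) + q*z3 + (-1)) * r2

theorem stmtE4b (h : StmtE4a) : StmtE4b := by
  intro A _ _ y1 y2 t ν ν' h1 h2
  obtain ⟨c, hc, e8⟩ : ∃ c : A, c = algebraMap ℝ A (1 / 8) ∧ 8 * c = 1 := by
    refine ⟨_, rfl, ?_⟩
    have : (8 : A) = algebraMap ℝ A 8 := (map_ofNat (algebraMap ℝ A) 8).symm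
    rw [this, ← map_mul]
    norm_num
  have s2 : ∀ x : A, (1 / 2 : ℝ) • x = 4 * c * x := by
    intro x
    rw [Algebra.smul_def, hc, show (4 : A) = algebraMap ℝ A 4 from (map_ofNat (algebraMap ℝ A) 4).symm, ← map_mul]
    norm_num
  have s4 : ∀ x : A, (1 / 4 : ℝ) • x = 2 * c * x := by
    intro x
    rw [Algebra.smul_def, hc, show (2 : A) = algebraMap ℝ A 2 from (map_ofNat (algebraMap ℝ A) 2).symm, ← map_mul]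
    norm_num
  have s34 : ∀ x : A, (3 / 4 : ℝ) • x = 6 * c * x := by
    intro x
    rw [Algebra.smul_def, hc, show (6 : A) = algebraMap ℝ A 6 from (map_ofNat (algebraMap ℝ A) 6).symm, ← map_mul]
    norm_num
  have s8 : ∀ x : A, (1 / 8 : ℝ) • x = c * x := by
    intro x
    rw [Algebra.smul_def, hc]
  unfold tau
  apply h
  · unfold ss zz qq
    rw [s2, s4, s34, s8]
    linear_combination (6 * c + c * ((1 + t) * ν' + (1 - t) * ν)) * h1 +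
      (c * ((ν * (1 - t) ^ 2 - (1 + t) ^ 2) * ((1 - t) * ν' - (1 + t))) + 1) * e8 +
      c * (1 - t) ^ 3 * h2
  · unfold kap eta qq
    rw [s2, s2, s2]
    linear_combination (-ν * (8 * c + 1)) * e8

end Pool.Agent.R263.KD
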