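import Mathlib
import Pool.Agent.R263.KD.Defs
import Pool.Agent.R263.KD.DefsX
import Pool.Agent.Helper104.HairyBall

/-!
# Project KD, piece F: the space over the two-sphere
-/

open scoped BoundedContinuousFunction
open Set Filter Topology Metric

noncomputable section

namespace Pool.Agent.R263.KD

namespace PieceF

section LimLemmas

variable {Ω : Type} [LinearOrder Ω] [TopologicalSpace Ω] [DiscreteTopology Ω] [hΩ : Om1 Ω]
variable {E : Type} [NormedAddCommGroup E] [NormedSpace ℝ E]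
variable {d : ℕ → (E →L[ℝ] ℝ)} {s : Ω → ℕ}

theorem lim_unique {S : XSub d s →L[ℝ] XSub d s} {h k k' : E} (h1 : Lim S h k)
    (h2 : Lim S h k') : k = k' := by
  obtain ⟨γ₀, h1⟩ := h1
  obtain ⟨γ₁, h2⟩ := h2
  obtain ⟨b, hb⟩ := h1 (max γ₀ γ₁) (le_max_left _ _)
  obtain ⟨b', hb'⟩ := h2 (max γ₀ γ₁) (le_max_right _ _)
  rw [← hb (max b b') (le_max_left _ _), ← hb' (max b b') (le_max_right _ _)]

theorem u_add (β : Ω) (h h' : E) :
    u (d := d) (s := s) β (h + h') = u β h + u β h' := by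
  apply ext_val
  intro γ
  rw [val_add, val_u, val_u, val_u]
  split_ifs <;> simp

theorem u_smul (β : Ω) (c : ℝ) (h : E) :
    u (d := d) (s := s) β (c • h) = c • u β h := by
  apply ext_val
  intro γ
  rw [val_smul, val_u, val_u]
  split_ifs <;> simp

theorem lim_add {S : XSub d s →L[ℝ] XSub d s} {h k h' k' : E} (h1 : Lim S h k)
    (h2 : Lim S h' k') : Lim S (h + h') (k + k') := by
  obtain ⟨γ₀, h1⟩ := h1
  obtain ⟨γ₁, h2⟩ := h2
  refine ⟨max γ₀ γ₁, fun γ hγ => ?_⟩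
  obtain ⟨b, hb⟩ := h1 γ ((le_max_left _ _).trans hγ)
  obtain ⟨b', hb'⟩ := h2 γ ((le_max_right _ _).trans hγ)
  refine ⟨max b b', fun β hβ => ?_⟩
  rw [u_add, map_add, val_add, hb β ((le_max_left _ _).trans hβ),
    hb' β ((le_max_right _ _).trans hβ)]

theorem lim_smul {S : XSub d s →L[ℝ] XSub d s} {h k : E} (c : ℝ) (h1 : Lim S h k) :
    Lim S (c • h) (c • k) := by
  obtain ⟨γ₀, h1⟩ := h1
  refine ⟨γ₀, fun γ hγ => ?_⟩
  obtain ⟨b, hb⟩ := h1 γ hγ
  refine ⟨b, fun β hβ => ?_⟩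
  rw [u_smul, map_smul, val_smul, hb β hβ]

theorem lim_add_op {S T : XSub d s →L[ℝ] XSub d s} {h k k' : E} (h1 : Lim S h k)
    (h2 : Lim T h k') : Lim (S + T) h (k + k') := by
  obtain ⟨γ₀, h1⟩ := h1
  obtain ⟨γ₁, h2⟩ := h2
  refine ⟨max γ₀ γ₁, fun γ hγ => ?_⟩
  obtain ⟨b, hb⟩ := h1 γ ((le_max_left _ _).trans hγ)
  obtain ⟨b', hb'⟩ := h2 γ ((le_max_right _ _).trans hγ)
  refine ⟨max b b', fun β hβ => ?_⟩
  show val (S (u β h) + T (u β h)) γ = _
  rw [val_add, hb β ((le_max_left _ _).trans hβ), hb' β ((le_max_right _ _).trans hβ)]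

theorem lim_zero_op (h : E) : Lim (0 : XSub d s →L[ℝ] XSub d s) h 0 := by
  obtain ⟨b⟩ := hΩ.ne
  exact ⟨b, fun γ _ => ⟨b, fun β _ => rfl⟩⟩

theorem lim_one_op (h : E) : Lim (1 : XSub d s →L[ℝ] XSub d s) h h := by
  obtain ⟨b⟩ := hΩ.ne
  exact ⟨b, fun γ _ => ⟨γ, fun β hβ => val_u_of_le h hβ⟩⟩

theorem lim_of_val {S : XSub d s →L[ℝ] XSub d s} {L : E →L[ℝ] E}
    (hS : ∀ f γ, val (S f) γ = L (val f γ)) (h : E) : Lim S h (L h) := by
  obtain ⟨b⟩ := hΩ.ne
  refine ⟨b, fun γ _ => ⟨γ, fun β hβ => ?_⟩⟩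
  rw [hS, val_u_of_le h hβ]

end LimLemmas

/-- the sphere -/
abbrev S2 := sphere (0 : Pool.Agent.Helper775.Hairy.E3) 1

instance : Nonempty S2 := by
  refine ⟨⟨EuclideanSpace.single 0 1, ?_⟩⟩
  simp

/-- a dense sequence of points -/
def pts (n : ℕ) : S2 := TopologicalSpace.denseSeq S2 n

/-- the evaluations -/
def dd (n : ℕ) : C(S2, ℝ) →L[ℝ] ℝ := ContinuousMap.evalCLM ℝ (pts n)

theorem dd_apply (n : ℕ) (e : C(S2, ℝ)) : dd n e = e (pts n) := rfl

theorem dd_ext {e e' : C(S2, ℝ)} (h : ∀ n, e (pts n) = e' (pts n)) : e = e' := by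
  have h1 : (e : S2 → ℝ) = e' :=
    (TopologicalSpace.denseRange_denseSeq S2).equalizer e.continuous e'.continuous
      (funext fun n => h n)
  exact DFunLike.coe_injective h1

theorem dd_sep (e : C(S2, ℝ)) (h : ∀ n, dd n e = 0) : e = 0 :=
  dd_ext fun n => h n

/-- coordinate functions -/
def co (i : Fin 3) : C(S2, ℝ) := ⟨fun x => (x : Pool.Agent.Helper775.Hairy.E3) i, by fun_prop⟩

theorem co_sq : co 0 * co 0 + co 1 * co 1 + co 2 * co 2 = 1 := by
  ext x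
  have h1 : ‖(x : Pool.Agent.Helper775.Hairy.E3)‖ = 1 := mem_sphere_zero_iff_norm.1 x.2
  have h2 := EuclideanSpace.norm_sq_eq (x : Pool.Agent.Helper775.Hairy.E3)
  rw [h1, Fin.sum_univ_three] at h2
  simp only [Real.norm_eq_abs, sq_abs] at h2
  show (x : Pool.Agent.Helper775.Hairy.E3) 0 * (x : Pool.Agent.Helper775.Hairy.E3) 0 +
    (x : Pool.Agent.Helper775.Hairy.E3) 1 * (x : Pool.Agent.Helper775.Hairy.E3) 1 +
    (x : Pool.Agent.Helper775.Hairy.E3) 2 * (x : Pool.Agent.Helper775.Hairy.E3) 2 = 1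
  linarith

theorem no_split (A B : Fin 3 → C(S2, ℝ)) (h0 : co 0 * A 0 + co 1 * A 1 + co 2 * A 2 = 0)
    (h1 : B 0 * A 0 + B 1 * A 1 + B 2 * A 2 = 1) : False := by
  have hc : Continuous fun x : S2 => (WithLp.toLp 2 fun i => A i x : Pool.Agent.Helper775.Hairy.E3) := by
    fun_prop
  refine Pool.Agent.Helper775.Hairy.hairy
    (fun x => (WithLp.toLp 2 fun i => A i x : Pool.Agent.Helper775.Hairy.E3)) hc ?_ ?_
  · intro x hx
    have h2 : ∀ i, A i x = 0 := by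
      intro i
      have := congrArg (fun v : Pool.Agent.Helper775.Hairy.E3 => v i) hx
      simpa using this
    have h3 := congrArg (fun f : C(S2, ℝ) => f x) h1
    simp [h2] at h3
  · intro x
    have h3 := congrArg (fun f : C(S2, ℝ) => f x) h0
    rw [PiLp.inner_apply, Fin.sum_univ_three]
    simp only [RCLike.inner_apply, conj_trivial]
    have h4 : (x : Pool.Agent.Helper775.Hairy.E3) 0 * A 0 x +
      (x : Pool.Agent.Helper775.Hairy.E3) 1 * A 1 x +
      (x : Pool.Agent.Helper775.Hairy.E3) 2 * A 2 x = 0 := h3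
    linarith

theorem core {Ω : Type} [LinearOrder Ω] [TopologicalSpace Ω] [DiscreteTopology Ω] [Om1 Ω]
    (s : Ω → ℕ) (hs : Stat s) (hB : StmtB) (hC : StmtC) (hM : StmtM) (hR : StmtR) : StmtF := by
  obtain ⟨hcl, hMu⟩ := hR Ω C(S2, ℝ) dd s
  have hcomp : CompleteSpace (XSub dd s) := hcl.completeSpace_coe
  choose Mu hMu' using fun g : C(S2, ℝ) =>
    hMu (ContinuousLinearMap.mul ℝ C(S2, ℝ) g) (fun n => ⟨g (pts n), fun e => rfl⟩)
  choose Λ hΛ using fun S : XSub dd s →L[ℝ] XSub dd s =>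
    hB Ω C(S2, ℝ) dd s dd_sep hs S 1
  have hlin : ∀ (S : XSub dd s →L[ℝ] XSub dd s) (h : C(S2, ℝ)), Lim S h (h * Λ S) := by
    intro S h
    obtain ⟨k, hk⟩ := hB Ω C(S2, ℝ) dd s dd_sep hs S h
    have h1 : k = h * Λ S := by
      refine dd_ext fun n => ?_
      have h2 : Lim S (h + (-(h (pts n))) • 1) (k + (-(h (pts n))) • Λ S) :=
        lim_add hk (lim_smul _ (hΛ S))
      have h3 : dd n (h + (-(h (pts n))) • (1 : C(S2, ℝ))) = 0 := by
        rw [dd_apply]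
        show h (pts n) + (-(h (pts n))) * 1 = 0
        ring
      have h4 := hC Ω C(S2, ℝ) dd s dd_sep hs S _ _ n h3 h2
      rw [dd_apply] at h4
      have h5 : k (pts n) + (-(h (pts n))) * Λ S (pts n) = 0 := h4
      show k (pts n) = h (pts n) * Λ S (pts n)
      linarith
    rw [← h1]
    exact hk
  have hmul : ∀ S T : XSub dd s →L[ℝ] XSub dd s, Λ (S * T) = Λ T * Λ S := by
    intro S T
    exact lim_unique (hΛ (S * T))
      (hM Ω C(S2, ℝ) dd s dd_sep hs S T 1 (Λ T) (Λ T * Λ S) (hΛ T) (hlin S (Λ T)))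
  have hadd : ∀ S T : XSub dd s →L[ℝ] XSub dd s, Λ (S + T) = Λ S + Λ T := by
    intro S T
    exact lim_unique (hΛ (S + T)) (lim_add_op (hΛ S) (hΛ T))
  have hzero : Λ (0 : XSub dd s →L[ℝ] XSub dd s) = 0 := lim_unique (hΛ 0) (lim_zero_op 1)
  have hone : Λ (1 : XSub dd s →L[ℝ] XSub dd s) = 1 := lim_unique (hΛ 1) (lim_one_op 1)
  have hmu : ∀ g, Λ (Mu g) = g := by
    intro g
    have h1 := lim_of_val (hMu' g) 1
    have h2 : (ContinuousLinearMap.mul ℝ C(S2, ℝ) g) 1 = g := by simp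
    rw [h2] at h1
    exact lim_unique (hΛ (Mu g)) h1
  have hcomm : ∀ g h : C(S2, ℝ), Mu g * Mu h = Mu (g * h) := by
    intro g h
    apply ContinuousLinearMap.ext
    intro f
    apply ext_val
    intro γ
    show val (Mu g (Mu h f)) γ = val (Mu (g * h) f) γ
    rw [hMu', hMu', hMu']
    show g * (h * val f γ) = g * h * val f γ
    ring
  have hMadd : ∀ g h : C(S2, ℝ), Mu g + Mu h = Mu (g + h) := by
    intro g h
    apply ContinuousLinearMap.ext
    intro f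
    apply ext_val
    intro γ
    show val (Mu g f + Mu h f) γ = val (Mu (g + h) f) γ
    rw [val_add, hMu', hMu', hMu']
    show g * val f γ + h * val f γ = (g + h) * val f γ
    ring
  have hMone : Mu 1 = 1 := by
    apply ContinuousLinearMap.ext
    intro f
    apply ext_val
    intro γ
    show val (Mu 1 f) γ = val f γ
    rw [hMu']
    show 1 * val f γ = val f γ
    ring
  have hcc : ∀ g h : C(S2, ℝ), Mu g * Mu h = Mu h * Mu g := fun g h =>
    (hcomm g h).trans ((congrArg Mu (mul_comm g h)).trans (hcomm h g).symm)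
  have hsq : Mu (co 0) * Mu (co 0) + Mu (co 1) * Mu (co 1) + Mu (co 2) * Mu (co 2) = 1 := by
    have q0 := hcomm (co 0) (co 0)
    have q1 := hcomm (co 1) (co 1)
    have q2 := hcomm (co 2) (co 2)
    have q3 := hMadd (co 0 * co 0) (co 1 * co 1)
    have q4 := hMadd (co 0 * co 0 + co 1 * co 1) (co 2 * co 2)
    have q5 : Mu (co 0 * co 0 + co 1 * co 1 + co 2 * co 2) = 1 :=
      (congrArg Mu co_sq).trans hMone
    exact (congrArg₂ (fun a b => a + b)
      ((congrArg₂ (fun a b => a + b) q0 q1).trans q3) q2).trans (q4.trans q5)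
  refine ⟨XSub dd s, inferInstance, inferInstance, hcomp, Mu (co 0), Mu (co 1), Mu (co 2),
    ?_, ?_, ?_, ?_, ?_⟩
  · exact hcc _ _
  · exact hcc _ _
  · exact hcc _ _
  · exact hsq
  · rintro ⟨a1, a2, a3, b1, b2, b3, h0, h1⟩
    have e3 : ∀ x1 x2 x3 y1 y2 y3 : XSub dd s →L[ℝ] XSub dd s,
        Λ (x1 * y1 + x2 * y2 + x3 * y3) = Λ y1 * Λ x1 + Λ y2 * Λ x2 + Λ y3 * Λ x3 := by
      intro x1 x2 x3 y1 y2 y3
      have e1 := hadd (x1 * y1 + x2 * y2) (x3 * y3)
      have e2 := hadd (x1 * y1) (x2 * y2)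
      have m1 := hmul x1 y1
      have m2 := hmul x2 y2
      have m3 := hmul x3 y3
      exact e1.trans (congrArg₂ (fun a b => a + b)
        (e2.trans (congrArg₂ (fun a b => a + b) m1 m2)) m3)
    have h2 : Λ a1 * co 0 + Λ a2 * co 1 + Λ a3 * co 2 = 0 := by
      have h4 := e3 (Mu (co 0)) (Mu (co 1)) (Mu (co 2)) a1 a2 a3
      have h5 : Λ (Mu (co 0) * a1 + Mu (co 1) * a2 + Mu (co 2) * a3) = 0 :=
        (congrArg Λ h0).trans hzero
      have h6 := h4.symm.trans h5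
      have m1 := hmu (co 0)
      have m2 := hmu (co 1)
      have m3 := hmu (co 2)
      rw [m1, m2, m3] at h6
      exact h6
    have h3 : Λ a1 * Λ b1 + Λ a2 * Λ b2 + Λ a3 * Λ b3 = 1 :=
      (e3 b1 b2 b3 a1 a2 a3).symm.trans ((congrArg Λ h1).trans hone)
    clear e3 h0 h1 hlin hmul hadd hzero hone hmu hcomm hMadd hMone hΛ hMu'
    refine no_split ![Λ a1, Λ a2, Λ a3] ![Λ b1, Λ b2, Λ b3] ?_ ?_
    · show co 0 * Λ a1 + co 1 * Λ a2 + co 2 * Λ a3 = 0
      rw [← h2, mul_comm (Λ a1), mul_comm (Λ a2), mul_comm (Λ a3)]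
    · show Λ b1 * Λ a1 + Λ b2 * Λ a2 + Λ b3 * Λ a3 = 1
      rw [← h3, mul_comm (Λ a1), mul_comm (Λ a2), mul_comm (Λ a3)]

end PieceF

/-- F. -/
theorem stmtF (hW : StmtW) (hB : StmtB) (hC : StmtC) (hM : StmtM) (hR : StmtR) : StmtF := by
  obtain ⟨Ω, _, _, s, hs⟩ := hW
  let _ : TopologicalSpace Ω := ⊥
  have : DiscreteTopology Ω := ⟨rfl⟩
  exact PieceF.core s hs hB hC hM hR

end Pool.Agent.R263.KD
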