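import Mathlib
import Pool.Agent.R263.KD.Defs
import Pool.Agent.R263.KD.DefsG

/-!
# Project KD (MP_dd2ee2_an), piece G: the weighted bilateral shift
-/

set_option autoImplicit false

open scoped BoundedContinuousFunction
open Set Filter Topology

noncomputable section

namespace Pool.Agent.R263.KD

namespace GP

variable {X : Type} [NormedAddCommGroup X] [NormedSpace ℝ X]

/-- `x ↦ (n ↦ v n • x (σ n))` -/
def Op (σ : ℤ → ℤ) (v : ℤ → ℝ) (C : ℝ) (hC : ∀ n, |v n| ≤ C) : (ℤ →ᵇ X) →L[ℝ] (ℤ →ᵇ X) :=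
  LinearMap.mkContinuous
    { toFun := fun x => BoundedContinuousFunction.ofNormedAddCommGroupDiscrete
        (fun n => v n • x (σ n)) (C * ‖x‖) (fun n => by
          rw [norm_smul, Real.norm_eq_abs]
          exact mul_le_mul (hC n) (x.norm_coe_le_norm _) (norm_nonneg _)
            ((abs_nonneg _).trans (hC n)))
      map_add' := fun x y => by
        ext n
        exact smul_add _ _ _
      map_smul' := fun c x => by
        ext n
        exact smul_comm _ _ _ } C (fun x => by
      have hC0 : 0 ≤ C := (abs_nonneg _).trans (hC 0)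
      refine (BoundedContinuousFunction.norm_le (by positivity)).2 fun n => ?_
      show ‖v n • x (σ n)‖ ≤ C * ‖x‖
      rw [norm_smul, Real.norm_eq_abs]
      exact mul_le_mul (hC n) (x.norm_coe_le_norm _) (norm_nonneg _) hC0)

theorem Op_apply (σ : ℤ → ℤ) (v : ℤ → ℝ) (C : ℝ) (hC : ∀ n, |v n| ≤ C) (x : ℤ →ᵇ X) (n : ℤ) :
    Op σ v C hC x n = v n • x (σ n) := rfl

/-- the weights -/
def w (n : ℤ) : ℝ := if 1 ≤ n then 1 / 2 else 2

theorem w_pos {n : ℤ} (h : 1 ≤ n) : w n = 1 / 2 := if_pos h
theorem w_neg {n : ℤ} (h : n ≤ 0) : w n = 2 := if_neg (by omega)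
theorem w_ne (n : ℤ) : w n ≠ 0 := by unfold w; split_ifs <;> norm_num
theorem w_abs (n : ℤ) : |w n| ≤ 2 := by unfold w; split_ifs <;> norm_num [abs_of_pos]
theorem w_inv_abs (n : ℤ) : |(w (n + 1))⁻¹| ≤ 2 := by
  unfold w; split_ifs <;> norm_num [abs_of_pos]

/-- the shift -/
def N : (ℤ →ᵇ X) →L[ℝ] (ℤ →ᵇ X) := Op (fun n => n - 1) w 2 w_abs
/-- its inverse -/
def N' : (ℤ →ᵇ X) →L[ℝ] (ℤ →ᵇ X) := Op (fun n => n + 1) (fun n => (w (n + 1))⁻¹) 2 w_inv_abs
/-- the truncation -/
def P : (ℤ →ᵇ X) →L[ℝ] (ℤ →ᵇ X) :=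
  Op (fun n => n) (fun n => if 0 ≤ n then 1 else 0) 1 (fun n => by split_ifs <;> simp)

theorem N_apply (x : ℤ →ᵇ X) (n : ℤ) : N x n = w n • x (n - 1) := rfl
theorem N'_apply (x : ℤ →ᵇ X) (n : ℤ) : N' x n = (w (n + 1))⁻¹ • x (n + 1) := rfl
theorem P_apply (x : ℤ →ᵇ X) (n : ℤ) : P x n = (if 0 ≤ n then (1 : ℝ) else 0) • x n := rfl
theorem P_pos (x : ℤ →ᵇ X) {n : ℤ} (h : 0 ≤ n) : P x n = x n := by
  rw [P_apply, if_pos h, one_smul]
theorem P_neg (x : ℤ →ᵇ X) {n : ℤ} (h : n < 0) : P x n = 0 := by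
  rw [P_apply, if_neg (by omega), zero_smul]

/-- the profile of the eigenvectors -/
def e (n : ℤ) : ℝ := (1 / 2 : ℝ) ^ n.natAbs

theorem e_abs (n : ℤ) : |e n| ≤ 1 := by
  unfold e
  rw [abs_of_nonneg (by positivity)]
  exact pow_le_one₀ (by norm_num) (by norm_num)

/-- the eigenvectors -/
def emb : X →L[ℝ] (ℤ →ᵇ X) :=
  LinearMap.mkContinuous
    { toFun := fun x => BoundedContinuousFunction.ofNormedAddCommGroupDiscrete
        (fun n => e n • x) (1 * ‖x‖) (fun n => by
          rw [norm_smul, Real.norm_eq_abs]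
          exact mul_le_mul_of_nonneg_right (e_abs n) (norm_nonneg _))
      map_add' := fun x y => by
        ext n
        exact smul_add _ _ _
      map_smul' := fun c x => by
        ext n
        exact smul_comm _ _ _ } 1 (fun x => by
      refine (BoundedContinuousFunction.norm_le (by positivity)).2 fun n => ?_
      show ‖e n • x‖ ≤ 1 * ‖x‖
      rw [norm_smul, Real.norm_eq_abs]
      exact mul_le_mul_of_nonneg_right (e_abs n) (norm_nonneg _))

theorem emb_apply (x : X) (n : ℤ) : emb x n = e n • x := rfl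

theorem e_step (n : ℤ) : w n * e (n - 1) = e n := by
  unfold e
  rcases le_or_gt 1 n with h | h
  · rw [w_pos h]
    have : n.natAbs = (n - 1).natAbs + 1 := by omega
    rw [this, pow_succ]
    ring
  · rw [w_neg (by omega)]
    have : (n - 1).natAbs = n.natAbs + 1 := by omega
    rw [this, pow_succ]
    ring

theorem e_zero : e 0 = 1 := by simp [e]

/-- the coordinatewise action -/
def cl : (X →L[ℝ] X) →ₐ[ℝ] ((ℤ →ᵇ X) →L[ℝ] (ℤ →ᵇ X)) :=
  AlgHom.ofLinearMap
    { toFun := fun a => a.compLeftContinuousBounded ℤ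
      map_add' := fun a b => by
        ext x n
        rfl
      map_smul' := fun c a => by
        ext x n
        rfl }
    (by
      ext x n
      rfl)
    (fun a b => by
      ext x n
      rfl)

theorem cl_apply (a : X →L[ℝ] X) (x : ℤ →ᵇ X) (n : ℤ) : cl a x n = a (x n) := rfl

theorem fix_eq (g : ℤ →ᵇ X) (h : N g = g) (n : ℤ) : g n = e n • g 0 := by
  have hs : ∀ n, g n = w n • g (n - 1) := by
    intro n
    conv_lhs => rw [← h]
    rfl
  have hp : ∀ m : ℕ, g (m : ℤ) = e (m : ℤ) • g 0 := by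
    intro m
    induction m with
    | zero => simp [e_zero]
    | succ m ih =>
      rw [hs, ← e_step ((m + 1 : ℕ) : ℤ)]
      have : ((m + 1 : ℕ) : ℤ) - 1 = (m : ℤ) := by push_cast; ring
      rw [this, ih, smul_smul]
  have hn : ∀ m : ℕ, g (-(m : ℤ)) = e (-(m : ℤ)) • g 0 := by
    intro m
    induction m with
    | zero => simp [e_zero]
    | succ m ih =>
      have h1 := hs (-(m : ℤ))
      have h2 := e_step (-(m : ℤ))
      have : (-(m : ℤ)) - 1 = -((m + 1 : ℕ) : ℤ) := by push_cast; ring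
      rw [this] at h1 h2
      rw [ih, ← h2, mul_smul] at h1
      exact (smul_right_injective X (w_ne (-(m : ℤ))) h1).symm
  rcases Int.eq_nat_or_neg n with ⟨m, rfl | rfl⟩
  · exact hp m
  · exact hn m

end GP

open GP

theorem stmtG : StmtG := by
  intro X _ _ _
  refine ⟨ℤ →ᵇ X, inferInstance, inferInstance, inferInstance, cl, N, N', P, emb,
    BoundedContinuousFunction.evalCLM ℝ (0 : ℤ), ?_, ?_, ?_, ?_, ?_, ?_, ?_, ?_, ?_, ?_, ?_, ?_⟩
  · ext x n
    show N (N' x) n = x n
    rw [N_apply, N'_apply, sub_add_cancel, smul_smul, mul_inv_cancel₀ (w_ne n), one_smul]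
  · ext x n
    show N' (N x) n = x n
    rw [N'_apply, N_apply, add_sub_cancel_right, smul_smul, inv_mul_cancel₀ (w_ne _), one_smul]
  · intro a
    ext x n
    show N (cl a x) n = cl a (N x) n
    rw [N_apply, cl_apply, cl_apply, N_apply, map_smul]
  · ext x n
    show P (P x) n = P x n
    rcases le_or_gt 0 n with h | h
    · rw [P_pos _ h]
    · rw [P_neg _ h, P_neg _ h]
  · intro a
    ext x n
    show P (cl a x) n = cl a (P x) n
    rw [P_apply, cl_apply, cl_apply, P_apply, map_smul]
  · ext x n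
    show P (N (P x)) n = N (P x) n
    rcases le_or_gt 0 n with h | h
    · rw [P_pos _ h]
    · rw [P_neg _ h, N_apply, P_neg _ (by omega), smul_zero]
  · intro x
    refine (BoundedContinuousFunction.norm_le (by positivity)).2 fun n => ?_
    rw [N_apply]
    rcases le_or_gt 1 n with h | h
    · rw [w_pos h, norm_smul, Real.norm_eq_abs, abs_of_pos (by norm_num : (0 : ℝ) < 1 / 2)]
      exact mul_le_mul_of_nonneg_left (BoundedContinuousFunction.norm_coe_le_norm _ _) (by norm_num)
    · rw [P_neg _ (by omega), smul_zero, norm_zero]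
      positivity
  · intro x hx
    have h0 : ∀ n : ℤ, 0 ≤ n → x n = 0 := by
      intro n hn
      rw [← P_pos x hn, hx]
      rfl
    constructor
    · ext n
      show P (N' x) n = 0
      rcases le_or_gt 0 n with h | h
      · rw [P_pos _ h, N'_apply, h0 (n + 1) (by omega), smul_zero]
      · rw [P_neg _ h]
    · refine (BoundedContinuousFunction.norm_le (by positivity)).2 fun n => ?_
      rw [N'_apply]
      rcases le_or_gt 0 n with h | h
      · rw [h0 (n + 1) (by omega), smul_zero, norm_zero]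
        positivity
      · rw [w_neg (by omega), norm_smul, Real.norm_eq_abs, abs_of_pos (by norm_num)]
        have := BoundedContinuousFunction.norm_coe_le_norm x (n + 1)
        have h2 : (2 : ℝ)⁻¹ = 1 / 2 := by norm_num
        rw [h2]
        exact mul_le_mul_of_nonneg_left this (by norm_num)
  · intro x
    ext n
    rw [N_apply, emb_apply, emb_apply, smul_smul, e_step]
  · intro g hg
    ext n
    rw [emb_apply]
    exact fix_eq g hg n
  · intro x
    show emb x 0 = x
    rw [emb_apply, e_zero, one_smul]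
  · intro a x
    ext n
    rw [cl_apply, emb_apply, emb_apply, map_smul]

end Pool.Agent.R263.KD
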