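import Mathlib
import Pool.Agent.R263.KD.Defs
import Pool.Agent.R263.KD.DefsX

/-!
# Project KD, piece M: multiplicativity of the limit
-/

open scoped BoundedContinuousFunction
open Set Filter Topology

set_option linter.unusedSectionVars false

namespace Pool.Agent.R263.KD

theorem M_indep {Ω : Type} [LinearOrder Ω] [TopologicalSpace Ω] [DiscreteTopology Ω] [Om1 Ω]
    {E : Type} [NormedAddCommGroup E] [NormedSpace ℝ E] {d : ℕ → (E →L[ℝ] ℝ)} {s : Ω → ℕ}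
    (R : XSub d s →L[ℝ] XSub d s) (γ b : Ω)
    (hb : ∀ f : XSub d s, (∀ γ', γ' ≤ b → val f γ' = 0) → val (R f) γ = 0)
    (h : E) (β β' : Ω) (hβ : b ≤ β) (hβ' : b ≤ β') :
    val (R (u β h)) γ = val (R (u β' h)) γ := by
  have h1 := hb (u β h - u β' h) (fun γ' hγ' => by
    rw [val_sub, val_u_of_le h (hγ'.trans hβ), val_u_of_le h (hγ'.trans hβ'), sub_self])
  rw [map_sub, val_sub] at h1
  exact sub_eq_zero.1 h1

theorem stmtM (hA : StmtA) : StmtM := by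
  intro Ω _ _ _ _ E _ _ d s hd hs S T h k k' hT hS
  choose bR hbR using hA Ω E d s hd (S.comp T)
  choose bT hbT using hA Ω E d s hd T
  choose bS hbS using hA Ω E d s hd S
  obtain ⟨g0, hg0⟩ := hT
  obtain ⟨g1, hg1⟩ := hS
  -- the limit function of `T (u β h)`
  set Fn : Ω → E := fun γ => val (T (u (bT γ) h)) γ with hFn
  have hF : ∀ γ β, bT γ ≤ β → val (T (u β h)) γ = Fn γ := fun γ β hβ =>
    M_indep T γ (bT γ) (hbT γ) h β (bT γ) hβ le_rfl
  have hFk : ∀ γ, g0 ≤ γ → Fn γ = k := by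
    intro γ hγ
    obtain ⟨b, hb⟩ := hg0 γ hγ
    rw [← hF γ (max b (bT γ)) (le_max_right _ _)]
    exact hb _ (le_max_left _ _)
  -- unboundedness of `C`
  have hC : ∀ a : Ω, ∃ β, a < β ∧ g0 < β ∧ ∀ γ < β, bT γ < β := by
    intro a
    obtain ⟨β, hβ, -, hβ'⟩ := hs 0 bT (max a g0)
    exact ⟨β, (le_max_left _ _).trans_lt hβ, (le_max_right _ _).trans_lt hβ, hβ'⟩
  obtain ⟨β0, -, hβ01, hβ02⟩ := hC g0
  set z0 : XSub d s := trunc g0 (T (u β0 h) - u β0 k) with hz0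
  have hz0v : ∀ γ, γ ≤ g0 → val z0 γ = Fn γ - k := by
    intro γ hγ
    have hlt : γ < β0 := hγ.trans_lt hβ01
    rw [hz0, val_trunc, if_pos hγ, val_sub, val_u_of_le k hlt.le, hF γ β0 (hβ02 γ hlt).le]
  have hz0v' : ∀ γ, g0 < γ → val z0 γ = 0 := by
    intro γ hγ
    rw [hz0, val_trunc, if_neg (not_le.2 hγ)]
  obtain ⟨b0, hb0⟩ := val_bdd (S z0)
  refine ⟨max g1 b0, fun γ hγ => ⟨bR γ, fun β' hβ' => ?_⟩⟩
  obtain ⟨b1, hb1⟩ := hg1 γ ((le_max_left _ _).trans hγ)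
  obtain ⟨β, h1, h2, h3⟩ := hC (max (bR γ) (max (bS γ) b1))
  have e1 : bR γ ≤ β := (le_max_left _ _).trans h1.le
  have e2 : bS γ < β := ((le_max_left _ _).trans (le_max_right _ _)).trans_lt h1
  have e3 : b1 ≤ β := ((le_max_right _ _).trans (le_max_right _ _)).trans h1.le
  rw [M_indep (S.comp T) γ (bR γ) (hbR γ) h β' β hβ' e1]
  have hr : ∀ γ', γ' ≤ bS γ → val (T (u β h) - u β k - z0) γ' = 0 := by
    intro γ' hγ'
    have hlt : γ' < β := hγ'.trans_lt e2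
    rw [val_sub, val_sub, val_u_of_le k hlt.le, hF γ' β (h3 γ' hlt).le]
    by_cases hc : γ' ≤ g0
    · rw [hz0v γ' hc, sub_self]
    · rw [hz0v' γ' (not_le.1 hc), hFk γ' (not_le.1 hc).le, sub_self, sub_zero]
  have h4 := hbS γ _ hr
  rw [map_sub, map_sub, val_sub, val_sub, hb1 β e3, hb0 γ ((le_max_right _ _).trans hγ),
    sub_zero] at h4
  rw [ContinuousLinearMap.comp_apply]
  exact sub_eq_zero.1 h4

end Pool.Agent.R263.KD
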