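import Mathlib
import Pool.Agent.R263.KD.Defs

/-!
# Project KD, piece P: Phillips' lemma (disjoint form)

An almost disjoint family of subsets of `ℕ` indexed by `ℕ → Bool` is used.
-/

set_option autoImplicit false

open scoped BoundedContinuousFunction
open Set Filter Topology

noncomputable section

namespace Pool.Agent.R263.KD

namespace PL

/-- codes of the initial segments of `f` -/
def g (f : ℕ → Bool) (n : ℕ) : ℕ := Encodable.encode ((List.range n).map f)

theorem g_eq {f f' : ℕ → Bool} {n n' : ℕ} (h : g f n = g f' n') :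
    n = n' ∧ ∀ i < n, f i = f' i := by
  have h1 := Encodable.encode_injective h
  have h2 := congrArg List.length h1
  simp only [List.length_map, List.length_range] at h2
  subst h2
  refine ⟨rfl, fun i hi => ?_⟩
  exact List.map_inj_left.1 h1 i (List.mem_range.2 hi)

/-- the branch of `f` -/
def A (f : ℕ → Bool) : Set ℕ := Set.range (g f)

theorem A_infinite (f : ℕ → Bool) : (A f).Infinite :=
  Set.infinite_range_of_injective (fun _ _ h => (g_eq h).1)

theorem A_inter {f f' : ℕ → Bool} (h : f ≠ f') : (A f ∩ A f').Finite := by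
  obtain ⟨i, hi⟩ := Function.ne_iff.1 h
  refine ((Set.finite_Iic i).image (g f)).subset ?_
  rintro m ⟨⟨n, rfl⟩, ⟨n', hn'⟩⟩
  obtain ⟨h1, h2⟩ := g_eq hn'
  subst h1
  refine ⟨n', ?_, rfl⟩
  by_contra hlt
  exact hi ((h2 i (not_le.1 hlt)).symm)

open Classical in
/-- indicator sequences -/
def ind (S : Set ℕ) : ℕ →ᵇ ℝ :=
  BoundedContinuousFunction.ofNormedAddCommGroupDiscrete (fun n => if n ∈ S then 1 else 0) 1
    (fun n => by split_ifs <;> simp)

open Classical in
theorem ind_apply (S : Set ℕ) (n : ℕ) : ind S n = if n ∈ S then 1 else 0 := rfl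

theorem ind_norm (S : Set ℕ) : ‖ind S‖ ≤ 1 := by
  classical
  refine (BoundedContinuousFunction.norm_le zero_le_one).2 (fun n => ?_)
  rw [ind_apply]
  split_ifs <;> simp

theorem eN_apply (m n : ℕ) : eN m n = if n = m then 1 else 0 := rfl

/-- value on sequences of finite support -/
theorem fin_supp (μ : (ℕ →ᵇ ℝ) →L[ℝ] ℝ) (ρ : ℝ) (l : ℕ)
    (h : ∀ m : ℕ, μ (eN m) = if l = m then ρ else 0) (c : ℕ →ᵇ ℝ) (s : Finset ℕ)
    (hc : ∀ m, m ∉ s → c m = 0) : μ c = ρ * c l := by
  classical
  have e : c = ∑ m ∈ s, c m • eN m := by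
    ext n
    rw [BoundedContinuousFunction.coe_sum, Finset.sum_apply]
    simp only [BoundedContinuousFunction.coe_smul, eN_apply, smul_eq_mul, mul_ite, mul_one,
      mul_zero]
    rw [Finset.sum_ite_eq]
    split_ifs with hn
    · rfl
    · exact hc n hn
  have e2 : μ c = ∑ m ∈ s, c m * (if l = m then ρ else 0) := by
    conv_lhs => rw [e]
    rw [map_sum]
    refine Finset.sum_congr rfl (fun m _ => ?_)
    rw [map_smul, h m, smul_eq_mul]
  rw [e2]
  simp only [mul_ite, mul_zero]
  rw [Finset.sum_ite_eq]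
  split_ifs with hl
  · ring
  · rw [hc l hl, mul_zero]

end PL

open PL in
theorem stmtP : StmtP := by
  classical
  intro μ M ρ hM hlim hμ
  by_contra hρ
  -- the functionals
  set F : ℕ → (ℕ →ᵇ ℝ) → ℝ := fun l c => c l - μ l c / ρ with hF
  have hFfin : ∀ (l : ℕ) (c : ℕ →ᵇ ℝ) (s : Finset ℕ), (∀ m, m ∉ s → c m = 0) → F l c = 0 := by
    intro l c s hc
    simp only [hF]
    rw [fin_supp (μ l) ρ l (hμ l) c s hc]
    field_simp
    ring
  have hbig : ∀ f : ℕ → Bool, ∃ l, 1 / 2 < F l (ind (A f)) := by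
    intro f
    have h1 := hlim (ind (A f))
    have h2 : ∀ᶠ l in atTop, |μ l (ind (A f))| < |ρ| / 2 := by
      have := (Metric.tendsto_nhds.1 h1) (|ρ| / 2) (by have := abs_pos.2 hρ; linarith)
      filter_upwards [this] with l hl
      rwa [Real.dist_eq, sub_zero] at hl
    obtain ⟨n0, hn0⟩ := eventually_atTop.1 h2
    obtain ⟨l, hl, hl0⟩ := (A_infinite f).exists_gt n0
    refine ⟨l, ?_⟩
    have h3 := hn0 l hl0.le
    simp only [hF]
    rw [ind_apply, if_pos hl]
    have h4 : |μ l (ind (A f)) / ρ| < 1 / 2 := by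
      rw [abs_div, div_lt_iff₀ (abs_pos.2 hρ)]
      linarith
    have := (abs_lt.1 h4).2
    linarith
  choose l hl using hbig
  -- an infinite fibre
  obtain ⟨k, hk⟩ : ∃ k : ℕ, {f : ℕ → Bool | l f = k}.Infinite := by
    by_contra hcon
    push Not at hcon
    have h1 : (⋃ k : ℕ, {f : ℕ → Bool | l f = k}).Countable :=
      Set.countable_iUnion (fun k => (hcon k).countable)
    have h2 : (⋃ k : ℕ, {f : ℕ → Bool | l f = k}) = Set.univ := by
      ext f
      simp
    rw [h2, Set.countable_univ_iff] at h1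
    obtain ⟨e, he⟩ := exists_surjective_nat (ℕ → Bool)
    obtain ⟨n, hn⟩ := he (fun n => !(e n n))
    have h3 := congrFun hn n
    simp at h3
  obtain ⟨N, hN⟩ := exists_nat_gt (2 * (1 + M / |ρ|))
  obtain ⟨S, hSsub, hScard⟩ := hk.exists_subset_card_eq N
  set x : ℕ →ᵇ ℝ := ∑ f ∈ S, ind (A f) with hx
  set x' : ℕ →ᵇ ℝ := ind (⋃ f ∈ S, A f) with hx'
  have hFx : (N : ℝ) * (1 / 2) ≤ F k x := by
    have e : F k x = ∑ f ∈ S, F k (ind (A f)) := by
      simp only [hF, hx]
      rw [map_sum, BoundedContinuousFunction.coe_sum, Finset.sum_apply, Finset.sum_sub_distrib,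
        Finset.sum_div]
    rw [e, ← hScard]
    have : ∑ f ∈ S, (1 / 2 : ℝ) ≤ ∑ f ∈ S, F k (ind (A f)) := by
      refine Finset.sum_le_sum (fun f hf => ?_)
      have h1 : l f = k := hSsub hf
      have h2 := hl f
      rw [h1] at h2
      exact h2.le
    rw [Finset.sum_const, nsmul_eq_mul] at this
    exact this
  have hfin : (⋃ p ∈ (S ×ˢ S).filter (fun p => p.1 ≠ p.2), A p.1 ∩ A p.2).Finite := by
    refine Set.Finite.biUnion (Finset.finite_toSet _) (fun p hp => ?_)
    exact A_inter (Finset.mem_filter.1 hp).2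
  have hc : F k (x - x') = 0 := by
    refine hFfin k (x - x') hfin.toFinset (fun m hm => ?_)
    rw [Set.Finite.mem_toFinset] at hm
    have huniq : ∀ f ∈ S, ∀ f' ∈ S, m ∈ A f → m ∈ A f' → f = f' := by
      intro f hf f' hf' h1 h2
      by_contra hne
      apply hm
      simp only [Set.mem_iUnion]
      exact ⟨(f, f'), Finset.mem_filter.2 ⟨Finset.mem_product.2 ⟨hf, hf'⟩, hne⟩, h1, h2⟩
    rw [BoundedContinuousFunction.coe_sub, Pi.sub_apply, hx, hx',
      BoundedContinuousFunction.coe_sum, Finset.sum_apply, ind_apply]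
    simp only [ind_apply]
    by_cases hex : ∃ f ∈ S, m ∈ A f
    · obtain ⟨f, hf, hmf⟩ := hex
      rw [if_pos (Set.mem_iUnion₂.2 ⟨f, hf, hmf⟩)]
      rw [Finset.sum_eq_single f]
      · rw [if_pos hmf, sub_self]
      · intro f' hf' hne
        rw [if_neg]
        intro h2
        exact hne (huniq f' hf' f hf h2 hmf)
      · intro h
        exact absurd hf h
    · rw [if_neg, Finset.sum_eq_zero, sub_self]
      · intro f hf
        rw [if_neg]
        intro h
        exact hex ⟨f, hf, h⟩
      · intro h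
        simp only [Set.mem_iUnion] at h
        obtain ⟨f, hf, h⟩ := h
        exact hex ⟨f, hf, h⟩
  have hsplit : F k x = F k x' + F k (x - x') := by
    simp only [hF]
    rw [map_sub, BoundedContinuousFunction.coe_sub, Pi.sub_apply]
    ring
  have hle : F k x' ≤ 1 + M / |ρ| := by
    simp only [hF]
    have h1 : x' k ≤ 1 := by
      rw [hx', ind_apply]
      split_ifs <;> norm_num
    have h2 : |μ k x' / ρ| ≤ M / |ρ| := by
      rw [abs_div]
      refine div_le_div_of_nonneg_right ?_ (abs_nonneg _)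
      have h3 := (μ k).le_opNorm x'
      rw [Real.norm_eq_abs] at h3
      refine h3.trans ?_
      have h4 := ind_norm (⋃ f ∈ S, A f)
      have h5 := hM k
      calc ‖μ k‖ * ‖x'‖ ≤ ‖μ k‖ * 1 := mul_le_mul_of_nonneg_left h4 (by positivity)
        _ ≤ M := by linarith
    have := (abs_le.1 h2).1
    linarith
  rw [hc, add_zero] at hsplit
  rw [hsplit] at hFx
  linarith

end Pool.Agent.R263.KD
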