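import Mathlib
import Pool.Agent.R263.KD.Defs
import Pool.Agent.R263.KD.DefsX

/-!
# Project KD, piece R: `X` is closed, and operators acting on the values
-/

open scoped BoundedContinuousFunction
open Set Filter Topology

noncomputable section

namespace Pool.Agent.R263.KD

theorem stmtR : StmtR := by
  intro Ω _ _ _ hΩ E _ _ _ d s
  constructor
  · apply IsSeqClosed.isClosed
    intro x f hx hlim
    rw [tendsto_iff_norm_sub_tendsto_zero] at hlim
    have hnorm : ∀ n γ, ‖x n γ - f γ‖ ≤ ‖x n - f‖ := fun n γ =>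
      BoundedContinuousFunction.norm_coe_le_norm (x n - f) γ
    refine ⟨?_, ?_⟩
    · have hb : ∀ n, ∃ b, ∀ γ, b ≤ γ → x n γ = 0 := fun n => (hx n).1
      choose b hb using hb
      obtain ⟨B, hB⟩ := hΩ.bdd b
      refine ⟨B, fun γ hγ => ?_⟩
      have h1 : ∀ n, ‖f γ‖ ≤ ‖x n - f‖ := by
        intro n
        have h2 := hnorm n γ
        rw [hb n γ ((hB n).le.trans hγ), zero_sub, norm_neg] at h2
        exact h2
      have h3 : ‖f γ‖ ≤ 0 := ge_of_tendsto hlim (Eventually.of_forall h1)
      exact norm_le_zero_iff.1 h3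
    · intro α a ha ε hε
      have hpos : 0 < ε / (3 * (‖d (s α)‖ + 1)) := by positivity
      obtain ⟨n, hn⟩ := (hlim.eventually_lt_const hpos).exists
      obtain ⟨β, hβ, h1⟩ := (hx n).2 α a ha (ε / 3) (by positivity)
      refine ⟨β, hβ, fun γ hγ hγ' => ?_⟩
      have h2 := h1 γ hγ hγ'
      have h3 : ∀ δ, |d (s α) (x n δ) - d (s α) (f δ)| ≤ ε / 3 := by
        intro δ
        rw [← map_sub]
        have e1 : |d (s α) (x n δ - f δ)| ≤ ‖d (s α)‖ * ‖x n δ - f δ‖ :=
          (d (s α)).le_opNorm _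
        have e2 : ‖d (s α)‖ * ‖x n δ - f δ‖ ≤ (‖d (s α)‖ + 1) * (ε / (3 * (‖d (s α)‖ + 1))) :=
          mul_le_mul (by linarith) ((hnorm n δ).trans hn.le) (norm_nonneg _) (by positivity)
        have e3 : (‖d (s α)‖ + 1) * (ε / (3 * (‖d (s α)‖ + 1))) = ε / 3 := by
          have : ‖d (s α)‖ + 1 ≠ 0 := by positivity
          field_simp
        linarith
      have h4 := h3 γ
      have h5 := h3 α
      rw [abs_le] at h2 h4 h5 ⊢
      constructor <;> linarith [h2.1, h2.2, h4.1, h4.2, h5.1, h5.2]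
  · intro L hL
    have hmem : ∀ f : XSub d s, (L.compLeftContinuousBounded Ω) f.1 ∈ XSub d s := by
      intro f
      refine ⟨?_, ?_⟩
      · obtain ⟨b, hb⟩ := val_bdd f
        refine ⟨b, fun γ hγ => ?_⟩
        change L (val f γ) = 0
        rw [hb γ hγ, map_zero]
      · intro α a ha ε hε
        obtain ⟨c, hc⟩ := hL (s α)
        obtain ⟨β, hβ, h1⟩ := val_LC f α a ha (ε / (|c| + 1)) (by positivity)
        refine ⟨β, hβ, fun γ hγ hγ' => ?_⟩
        change |d (s α) (L (val f γ)) - d (s α) (L (val f α))| ≤ ε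
        rw [hc, hc, ← mul_sub, abs_mul]
        calc |c| * |d (s α) (val f γ) - d (s α) (val f α)| ≤ |c| * (ε / (|c| + 1)) :=
              mul_le_mul_of_nonneg_left (h1 γ hγ hγ') (abs_nonneg _)
          _ ≤ (|c| + 1) * (ε / (|c| + 1)) :=
              mul_le_mul_of_nonneg_right (by linarith) (by positivity)
          _ = ε := by field_simp
    exact ⟨((L.compLeftContinuousBounded Ω).comp (XSub d s).subtypeL).codRestrict (XSub d s) hmem,
      fun f γ => rfl⟩

end Pool.Agent.R263.KD
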