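import Pool.Agent.R263.KD.Defs

set_option autoImplicit false

open Set Filter Topology

namespace Pool.Agent.R263.KD

namespace Wp

section
variable {Ω : Type} [LinearOrder Ω] [h : Om1 Ω]

include h in
lemma not_cnt : ¬ Countable Ω := by
  intro hc
  have hne := h.ne
  obtain ⟨f, hf⟩ := exists_surjective_nat Ω
  obtain ⟨b, hb⟩ := h.bdd f
  obtain ⟨m, hm⟩ := hf b
  have := hb m
  rw [hm] at this
  exact lt_irrefl _ this

include h in
lemma bdd_set {S : Set Ω} (hS : S.Countable) : ∃ b, ∀ x ∈ S, x < b := by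
  rcases S.eq_empty_or_nonempty with rfl | hne
  · obtain ⟨b⟩ := h.ne
    exact ⟨b, fun x hx => absurd hx (Set.notMem_empty x)⟩
  · obtain ⟨f, hf⟩ := hS.exists_eq_range hne
    obtain ⟨b, hb⟩ := h.bdd f
    refine ⟨b, ?_⟩
    intro x hx
    rw [hf] at hx
    obtain ⟨n, rfl⟩ := hx
    exact hb n

include h in
lemma closed_pt (φ : Ω → Ω) (a : Ω) : ∃ α, a < α ∧ ∀ γ < α, φ γ < α := by
  have hg : ∀ c : Ω, ∃ b, c < b ∧ ∀ γ ≤ c, φ γ < b := by
    intro c
    have hcnt : (insert c (φ '' (Iic c))).Countable := ((h.cnt c).image φ).insert c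
    obtain ⟨b, hb⟩ := bdd_set hcnt
    refine ⟨b, hb c (Set.mem_insert _ _), ?_⟩
    intro γ hγ
    exact hb _ (Set.mem_insert_of_mem _ ⟨γ, hγ, rfl⟩)
  choose g hg1 hg2 using hg
  have hwf : WellFounded ((· < ·) : Ω → Ω → Prop) := h.wf.wf
  obtain ⟨b, hb⟩ := h.bdd (fun n => g^[n] a)
  obtain ⟨α, hα, hmin⟩ := hwf.has_min {x | ∀ n, g^[n] a < x} ⟨b, hb⟩
  refine ⟨α, hα 0, ?_⟩
  intro γ hγ
  have h1 : γ ∉ {x | ∀ n, g^[n] a < x} := fun hmem => hmin γ hmem hγ
  simp only [Set.mem_ofPred_eq, not_forall, not_lt] at h1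
  obtain ⟨n, hn⟩ := h1
  have h2 := hg2 _ γ hn
  have h3 := hα (n + 1)
  rw [Function.iterate_succ_apply'] at h3
  exact h2.trans h3

/-- stationary sets -/
def IsSt {Ω : Type} [LinearOrder Ω] (S : Set Ω) : Prop :=
  ∀ (φ : Ω → Ω) (a : Ω), ∃ α ∈ S, a < α ∧ ∀ γ < α, φ γ < α

include h in
theorem exists_stat : ∃ s : Ω → ℕ, Stat s := by
  classical
  have he : ∀ x : Ω, ∃ f : Ω → ℕ, Set.InjOn f (Iio x) := by
    intro x
    have : (Iio x).Countable := (h.cnt x).mono (fun y hy => le_of_lt hy)
    exact Set.countable_iff_exists_injOn.mp this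
  choose e he using he
  have hst : ∀ b : Ω, ∃ n : ℕ, IsSt {x | b < x ∧ e x b = n} := by
    intro b
    by_contra hcon
    push Not at hcon
    have h1 : ∀ n : ℕ, ∃ (φ : Ω → Ω) (a : Ω), ∀ α, α ∈ {x | b < x ∧ e x b = n} → a < α →
        ¬ ∀ γ < α, φ γ < α := by
      intro n
      have := hcon n
      unfold IsSt at this
      push Not at this
      obtain ⟨φ, a, h2⟩ := this
      refine ⟨φ, a, ?_⟩
      intro α hα haα hcl
      obtain ⟨γ, hγ1, hγ2⟩ := h2 α hα haα
      exact absurd (hcl γ hγ1) (not_lt.mpr hγ2)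
    choose φ a hφ using h1
    have h2 : ∀ x : Ω, ∃ y, ∀ n, φ n x < y := fun x => h.bdd (fun n => φ n x)
    choose Φ hΦ using h2
    obtain ⟨a1, ha1⟩ := h.bdd a
    obtain ⟨α, hα1, hα2⟩ := closed_pt Φ (max a1 b)
    have hbα : b < α := lt_of_le_of_lt (le_max_right _ _) hα1
    have haα : a1 < α := lt_of_le_of_lt (le_max_left _ _) hα1
    refine hφ (e α b) α ⟨hbα, rfl⟩ ((ha1 _).trans haα) ?_
    intro γ hγ
    exact (hΦ γ _).trans (hα2 γ hγ)
  choose n hn using hst
  have hinf : ∃ m : ℕ, {b : Ω | n b = m}.Infinite := by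
    by_contra hcon
    push Not at hcon
    apply not_cnt (Ω := Ω)
    have h1 : (Set.univ : Set Ω) = ⋃ m : ℕ, {b : Ω | n b = m} := by
      ext b
      simp
    have h2 : (Set.univ : Set Ω).Countable := by
      rw [h1]
      apply Set.countable_iUnion
      intro m
      exact (hcon m).countable
    exact Set.countable_univ_iff.mp h2
  obtain ⟨m, hm⟩ := hinf
  let b := hm.natEmbedding
  have hb : ∀ i, n (b i : Ω) = m := fun i => (b i).2
  have huniq : ∀ (x : Ω) (i j : ℕ), (b i : Ω) < x → e x (b i) = m → (b j : Ω) < x → e x (b j) = m →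
      i = j := by
    intro x i j h1 h2 h3 h4
    have h5 : ((b i : {b : Ω | n b = m}) : Ω) = b j := he x h1 h3 (h2.trans h4.symm)
    exact b.injective (Subtype.ext h5)
  refine ⟨fun x => if hx : ∃ i, (b i : Ω) < x ∧ e x (b i) = m then hx.choose else 0, ?_⟩
  intro i φ a
  have h1 := hn (b i)
  rw [hb i] at h1
  obtain ⟨α, hα, haα, hcl⟩ := h1 φ a
  refine ⟨α, haα, ?_, hcl⟩
  have hx : ∃ i, (b i : Ω) < α ∧ e α (b i) = m := ⟨i, hα.1, hα.2⟩
  simp only [dif_pos hx]
  exact huniq α _ _ hx.choose_spec.1 hx.choose_spec.2 hα.1 hα.2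

end

/-- an uncountable type without an order -/
structure Wt : Type where
  /-- the set -/
  x : Set ℕ

lemma Wt_unc : ¬ Countable Wt := by
  intro hc
  have h1 : Countable (Set ℕ) := by
    have : Function.Injective (fun s : Set ℕ => (⟨s⟩ : Wt)) := by
      intro s t hst
      exact congrArg Wt.x hst
    exact this.countable
  obtain ⟨f, hf⟩ := exists_surjective_nat (Set ℕ)
  exact Function.cantor_surjective f hf

end Wp

open Wp in
theorem stmtW : StmtW := by
  obtain ⟨lo, hwf⟩ := exists_wellFoundedLT Wt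
  let Ω : Type := {x : Wt // (Iic x).Countable}
  have hunc : ¬ Countable Ω := by
    intro hc
    have hS : {x : Wt | (Iic x).Countable}.Countable := Set.countable_coe_iff.mp hc
    by_cases hall : ∀ x : Wt, (Iic x).Countable
    · apply Wt_unc
      have : {x : Wt | (Iic x).Countable} = Set.univ := by
        ext x; simp [hall x]
      rw [this] at hS
      exact Set.countable_univ_iff.mp hS
    · push Not at hall
      obtain ⟨x0, hx0, hmin⟩ := hwf.wf.has_min {x : Wt | ¬ (Iic x).Countable} hall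
      apply hx0
      have h1 : Iic x0 ⊆ insert x0 {x : Wt | (Iic x).Countable} := by
        intro y hy
        rcases (le_iff_lt_or_eq.mp (show y ≤ x0 from hy)) with h | h
        · right
          by_contra hc2
          exact hmin y hc2 h
        · left; exact h
      exact (hS.insert x0).mono h1
  have hlow : ∀ (a : Ω), (Iic a : Set Ω).Countable := by
    intro a
    have h1 : (Subtype.val '' (Iic a : Set Ω)).Countable := by
      apply a.2.mono
      rintro _ ⟨y, hy, rfl⟩
      exact hy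
    exact Set.countable_of_injective_of_countable_image (Subtype.val_injective.injOn) h1
  have hom : Om1 Ω := by
    refine ⟨?_, ?_, hlow, ?_⟩
    · by_contra hne
      rw [not_nonempty_iff] at hne
      exact hunc inferInstance
    · exact ⟨InvImage.wf Subtype.val hwf.wf⟩
    · intro f
      by_contra hcon
      push Not at hcon
      apply hunc
      have h1 : (Set.univ : Set Ω) = ⋃ n : ℕ, Iic (f n) := by
        ext b
        simp only [Set.mem_univ, Set.mem_iUnion, true_iff]
        exact hcon b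
      have h2 : (Set.univ : Set Ω).Countable := by
        rw [h1]
        exact Set.countable_iUnion fun n => hlow (f n)
      exact Set.countable_univ_iff.mp h2
  obtain ⟨s, hs⟩ := exists_stat (Ω := Ω) (h := hom)
  exact ⟨Ω, inferInstance, hom, s, hs⟩

end Pool.Agent.R263.KD
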